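import Mathlib
import Pool.Agent.N967.P.Stm
import Pool.Agent.N967.G.StmA

set_option autoImplicit false

/-!
# Baez-Duarte's distance for general L-functions: the properties of the L-function under the Riemann hypothesis
-/

namespace Pool.Agent.N967.P

open Complex MeasureTheory Filter Topology
open Pool.Agent.Y23 (Lg)
open Pool.Agent.N967.G (S_lf S_kerL S_sh)

/-- everything that is used about the L-function, under its Riemann hypothesis; `left` says that the trivial zeros are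
not close to the critical line -/
structure Ax (D : Dat) : Prop where
  base : Base D
  zero : ∀ s : ℂ, 1 / 2 < s.re → D.Zs s ≠ 0
  left : ∃ e0 : ℝ, 0 < e0 ∧ ∀ s : ℂ, 1 / 2 - e0 < s.re → s.re < 1 / 2 → D.Zs s ≠ 0
  ser : ∃ (b : ℕ → ℂ) (σ1 : ℝ), 1 ≤ σ1 ∧ ∀ s : ℂ, σ1 < s.re → LSeriesSummable b s ∧ D.fz s = LSeries b s
  bd : ∃ C : ℝ, 0 < C ∧ ∀ s : ℂ, 5 / 2 ≤ s.re → ‖D.L s‖ ≤ C ∧ ‖D.fz s‖ ≤ C

/-- the zeros near the height `τ` -/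
def S_zn (D : Dat) : Prop := ∃ C : ℝ, 0 < C ∧ ∀ τ : ℝ, ∃ Z : Finset ℂ,
  (∀ ρ : ℂ, ρ ∈ Z ↔ D.Zs ρ = 0 ∧ ‖ρ - (5 / 2 + τ * I)‖ ≤ 35 / 16) ∧
  ∑ ρ ∈ Z, (D.mu ρ : ℝ) ≤ C * Lg τ ∧
  (∀ s s' : ℂ, ‖s - (5 / 2 + τ * I)‖ ≤ 17 / 8 → ‖s' - (5 / 2 + τ * I)‖ ≤ 17 / 8 →
    ‖D.Zs s‖ * ∏ ρ ∈ Z, ‖s' - ρ‖ ^ D.mu ρ ≤
      Real.exp (C * Lg τ * ‖s - s'‖) * ‖D.Zs s'‖ * ∏ ρ ∈ Z, ‖s - ρ‖ ^ D.mu ρ) ∧
  (∀ s : ℂ, ‖s - (5 / 2 + τ * I)‖ ≤ 17 / 8 → D.Zs s ≠ 0 →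
    ‖logDeriv D.Zs s - ∑ ρ ∈ Z, (D.mu ρ : ℂ) / (s - ρ)‖ ≤ C * Lg τ)

/-- the Lindelof hypothesis to the right of the critical line, for `L` and its inverse -/
def S_lind (D : Dat) : Prop := ∀ δ η : ℝ, 0 < δ → 0 < η → ∃ C : ℝ, 0 < C ∧ ∀ s : ℂ, 1 / 2 + δ ≤ s.re →
  (D.T1 ≤ |s.im| → ‖D.L s‖ ≤ C * Real.exp (η * Lg s.im)) ∧ ‖D.fz s‖ ≤ C * Real.exp (η * Lg s.im)

/-- the Lindelof hypothesis on the critical line -/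
def S_crit (D : Dat) : Prop := ∀ η : ℝ, 0 < η → ∃ C : ℝ, 0 < C ∧ ∀ t : ℝ,
  ‖D.L (1 / 2 + t * I)‖ ≤ C * Real.exp (η * Lg t)

/-- finitely many zeros at bounded height, `O (log t)` zeros in a unit interval -/
def S_cnt (D : Dat) : Prop := (∀ R : ℝ, {s : ℂ | D.IsZ s ∧ |s.im| ≤ R}.Finite) ∧
  ∃ C : ℝ, 0 < C ∧ ∀ t : ℝ, ∀ S : Finset ℂ, (∀ s ∈ S, D.IsZ s ∧ |s.im - t| ≤ 1) → ∑ s ∈ S, (D.mu s : ℝ) ≤ C * Lg t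

/-- at most `C r log t` zeros in an interval of radius `r ≥ 1 / log log t` -/
def S_slope (D : Dat) : Prop := ∃ C T0 : ℝ, 0 < C ∧ Real.exp 1 ≤ T0 ∧ D.Slope 1 C T0

end Pool.Agent.N967.P
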