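import Mathlib
import Pool.Agent.N967.P.StmA

set_option autoImplicit false

/-!
# The polynomials `P` and `Q`
-/

namespace Pool.Agent.N967.P

open Complex MeasureTheory Filter Topology

variable {D : Dat}

lemma P_diff : Differentiable ℂ D.P := by
  have : D.P = fun s => ∏ j, (s + D.sh j * I - 1) := rfl
  rw [this]
  fun_prop

lemma Q_diff : Differentiable ℂ D.Q := by
  have : D.Q = fun s => ∏ j, (s + D.sh j * I) := rfl
  rw [this]
  fun_prop

lemma P_norm (s : ℂ) : ‖D.P s‖ = ∏ j, ‖s + D.sh j * I - 1‖ := norm_prod _ _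

lemma Q_norm (s : ℂ) : ‖D.Q s‖ = ∏ j, ‖s + D.sh j * I‖ := norm_prod _ _

/-- the zeros of `P` are on the line `re s = 1` -/
lemma P_ne {s : ℂ} (h : s.re ≠ 1) : D.P s ≠ 0 := by
  refine Finset.prod_ne_zero_iff.2 fun j _ h0 => h ?_
  have h1 := congrArg Complex.re h0
  simp at h1
  linarith

lemma P_zero {s : ℂ} (h : D.P s = 0) : ∃ j, s = 1 - D.sh j * I := by
  obtain ⟨j, -, hj⟩ := Finset.prod_eq_zero_iff.1 h
  exact ⟨j, by linear_combination hj⟩

lemma Q_ne {s : ℂ} (h : 0 < s.re) : D.Q s ≠ 0 := by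
  refine Finset.prod_ne_zero_iff.2 fun j _ h0 => h.ne' ?_
  have h1 := congrArg Complex.re h0
  simp at h1
  linarith

/-- `|P| = |Q|` on the critical line -/
lemma P_half {s : ℂ} (h : s.re = 1 / 2) : ‖D.P s‖ = ‖D.Q s‖ := by
  rw [P_norm, Q_norm]
  refine Finset.prod_congr rfl fun j _ => ?_
  have e1 : ‖s + D.sh j * I - 1‖ ^ 2 = ‖s + D.sh j * I‖ ^ 2 := by
    rw [← Complex.normSq_eq_norm_sq, ← Complex.normSq_eq_norm_sq, Complex.normSq_apply, Complex.normSq_apply]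
    simp [h]
    ring
  exact (sq_eq_sq₀ (norm_nonneg _) (norm_nonneg _)).1 e1

lemma P_half' (t : ℝ) : ‖D.P (1 / 2 + t * I)‖ = ‖D.Q (1 / 2 + t * I)‖ := P_half (by norm_num)

lemma c_one : 1 ≤ D.c := by
  have h : ∏ _j : Fin D.p, (1 : ℝ) ≤ ∏ j, (1 + |D.sh j|) :=
    Finset.prod_le_prod (fun _ _ => zero_le_one) fun j _ => by linarith [abs_nonneg (D.sh j)]
  rw [Finset.prod_const_one] at h
  exact h

lemma c_pos : 0 < D.c := lt_of_lt_of_le one_pos c_one

lemma fac_le (s : ℂ) (j : Fin D.p) : ‖s + D.sh j * I - 1‖ ≤ (1 + |D.sh j|) * (1 + ‖s‖) := by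
  have h1 : ‖s + D.sh j * I - 1‖ ≤ ‖s‖ + |D.sh j| + 1 := by
    refine (norm_sub_le _ _).trans ?_
    rw [norm_one]
    have := norm_add_le s (D.sh j * I)
    rw [norm_mul, Complex.norm_I, mul_one, Complex.norm_real, Real.norm_eq_abs] at this
    linarith
  have h2 := norm_nonneg s
  have h3 := abs_nonneg (D.sh j)
  nlinarith

lemma facQ_le (s : ℂ) (j : Fin D.p) : ‖s + D.sh j * I‖ ≤ (1 + |D.sh j|) * (1 + ‖s‖) := by
  have h1 : ‖s + D.sh j * I‖ ≤ ‖s‖ + |D.sh j| := by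
    have := norm_add_le s (D.sh j * I)
    rwa [norm_mul, Complex.norm_I, mul_one, Complex.norm_real, Real.norm_eq_abs] at this
  have h2 := norm_nonneg s
  have h3 := abs_nonneg (D.sh j)
  nlinarith

/-- polynomial growth of `P` -/
lemma P_le (s : ℂ) : ‖D.P s‖ ≤ D.c * (1 + ‖s‖) ^ D.p := by
  rw [P_norm]
  calc ∏ j, ‖s + D.sh j * I - 1‖ ≤ ∏ j : Fin D.p, ((1 + |D.sh j|) * (1 + ‖s‖)) :=
        Finset.prod_le_prod (fun _ _ => norm_nonneg _) fun j _ => fac_le s j
    _ = D.c * (1 + ‖s‖) ^ D.p := by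
        rw [Finset.prod_mul_distrib, Finset.prod_const, Finset.card_univ, Fintype.card_fin]
        rfl

/-- polynomial growth of `Q` -/
lemma Q_le (s : ℂ) : ‖D.Q s‖ ≤ D.c * (1 + ‖s‖) ^ D.p := by
  rw [Q_norm]
  calc ∏ j, ‖s + D.sh j * I‖ ≤ ∏ j : Fin D.p, ((1 + |D.sh j|) * (1 + ‖s‖)) :=
        Finset.prod_le_prod (fun _ _ => norm_nonneg _) fun j _ => facQ_le s j
    _ = D.c * (1 + ‖s‖) ^ D.p := by
        rw [Finset.prod_mul_distrib, Finset.prod_const, Finset.card_univ, Fintype.card_fin]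
        rfl

lemma pow_le_prod {a : ℝ} (ha : 0 ≤ a) {f : Fin D.p → ℝ} (h : ∀ j, a ≤ f j) : a ^ D.p ≤ ∏ j, f j := by
  have h1 : ∏ _j : Fin D.p, a ≤ ∏ j, f j := Finset.prod_le_prod (fun _ _ => ha) fun j _ => h j
  rwa [Finset.prod_const, Finset.card_univ, Fintype.card_fin] at h1

/-- lower bound for `Q` -/
lemma Q_ge {s : ℂ} {a : ℝ} (ha : 0 ≤ a) (h : a ≤ s.re) : a ^ D.p ≤ ‖D.Q s‖ := by
  rw [Q_norm]
  refine pow_le_prod ha fun j => ?_
  have h1 := Complex.abs_re_le_norm (s + D.sh j * I)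
  have h2 : (s + D.sh j * I).re = s.re := by simp
  rw [h2] at h1
  exact h.trans ((le_abs_self _).trans h1)

/-- lower bound for `P` to the left of its zeros -/
lemma P_ge {s : ℂ} {a : ℝ} (ha : 0 ≤ a) (h : s.re ≤ 1 - a) : a ^ D.p ≤ ‖D.P s‖ := by
  rw [P_norm]
  refine pow_le_prod ha fun j => ?_
  have h1 := Complex.abs_re_le_norm (s + D.sh j * I - 1)
  have h2 : (s + D.sh j * I - 1).re = s.re - 1 := by simp
  rw [h2] at h1
  refine le_trans ?_ ((neg_le_abs _).trans h1)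
  linarith

/-- lower bound for `P` to the right of its zeros -/
lemma P_ge_right {s : ℂ} {a : ℝ} (ha : 0 ≤ a) (h : 1 + a ≤ s.re) : a ^ D.p ≤ ‖D.P s‖ := by
  rw [P_norm]
  refine pow_le_prod ha fun j => ?_
  have h1 := Complex.abs_re_le_norm (s + D.sh j * I - 1)
  have h2 : (s + D.sh j * I - 1).re = s.re - 1 := by simp
  rw [h2] at h1
  refine le_trans ?_ ((le_abs_self _).trans h1)
  linarith

lemma T1_one : 1 ≤ D.T1 := by
  unfold Dat.T1
  have : 0 ≤ ∑ j, |D.sh j| := Finset.sum_nonneg fun j _ => abs_nonneg _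
  linarith

lemma sh_le (j : Fin D.p) : |D.sh j| ≤ D.T1 - 1 := by
  unfold Dat.T1
  have : |D.sh j| ≤ ∑ j, |D.sh j| :=
    Finset.single_le_sum (f := fun j => |D.sh j|) (fun _ _ => abs_nonneg _) (Finset.mem_univ j)
  linarith

/-- lower bound for `P` above all poles -/
lemma P_ge_high {s : ℂ} (h : D.T1 ≤ |s.im|) : 1 ≤ ‖D.P s‖ := by
  rw [P_norm, ← one_pow D.p]
  refine pow_le_prod zero_le_one fun j => ?_
  have h1 := Complex.abs_im_le_norm (s + D.sh j * I - 1)
  have h2 : (s + D.sh j * I - 1).im = s.im + D.sh j := by simp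
  rw [h2] at h1
  have h3 := abs_sub_abs_le_abs_sub s.im (-D.sh j)
  rw [abs_neg, sub_neg_eq_add] at h3
  have h4 := sh_le j
  linarith

lemma P_ne_high {s : ℂ} (h : D.T1 ≤ |s.im|) : D.P s ≠ 0 := by
  have h1 := P_ge_high h
  intro h0
  rw [h0, norm_zero] at h1
  linarith

/-- comparison of `P` at two points, factor by factor -/
lemma P_cmp {s s' : ℂ} {A : ℝ} (hA : 0 ≤ A) (h : ∀ j : Fin D.p, ‖s' + D.sh j * I - 1‖ ≤ A * ‖s + D.sh j * I - 1‖) :
    ‖D.P s'‖ ≤ A ^ D.p * ‖D.P s‖ := by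
  rw [P_norm, P_norm]
  calc ∏ j, ‖s' + D.sh j * I - 1‖ ≤ ∏ j, (A * ‖s + D.sh j * I - 1‖) :=
        Finset.prod_le_prod (fun _ _ => norm_nonneg _) fun j _ => h j
    _ = A ^ D.p * ∏ j, ‖s + D.sh j * I - 1‖ := by
        rw [Finset.prod_mul_distrib, Finset.prod_const, Finset.card_univ, Fintype.card_fin]

lemma norm_fac_mono {s s' : ℂ} (him : s'.im = s.im) (h1 : s.re ≤ s'.re) (h2 : s'.re ≤ 1) (x : ℝ) :
    ‖s' + x * I - 1‖ ≤ ‖s + x * I - 1‖ := by
  rw [Complex.norm_def, Complex.norm_def]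
  apply Real.sqrt_le_sqrt
  rw [Complex.normSq_apply, Complex.normSq_apply]
  simp only [Complex.sub_re, Complex.add_re, Complex.mul_re, Complex.ofReal_re, Complex.I_re, mul_zero,
    Complex.ofReal_im, Complex.I_im, mul_one, sub_self, add_zero, Complex.one_re, Complex.sub_im, Complex.add_im,
    Complex.mul_im, zero_mul, Complex.one_im, sub_zero, him]
  nlinarith

/-- `|P|` decreases towards the line `re s = 1` -/
lemma P_mono {s s' : ℂ} (him : s'.im = s.im) (h1 : s.re ≤ s'.re) (h2 : s'.re ≤ 1) : ‖D.P s'‖ ≤ ‖D.P s‖ := by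
  have := P_cmp (D := D) (s := s) (s' := s') zero_le_one fun j => by
    rw [one_mul]
    exact norm_fac_mono him h1 h2 _
  rwa [one_pow, one_mul] at this

/-- comparison of `P` at two near points to the left of the zeros -/
lemma P_close {s s' : ℂ} (h1 : s.re ≤ 3 / 4) (h2 : ‖s' - s‖ ≤ 1 / 4) : ‖D.P s'‖ ≤ 2 ^ D.p * ‖D.P s‖ := by
  refine P_cmp zero_le_two fun j => ?_
  have h3 := Complex.abs_re_le_norm (s + D.sh j * I - 1)
  have h4 : (s + D.sh j * I - 1).re = s.re - 1 := by simp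
  rw [h4, abs_of_nonpos (by linarith)] at h3
  have h5 : ‖s' + D.sh j * I - 1‖ ≤ ‖s' - s‖ + ‖s + D.sh j * I - 1‖ := by
    have := norm_add_le (s' - s) (s + D.sh j * I - 1)
    rwa [show s' - s + (s + D.sh j * I - 1) = s' + D.sh j * I - 1 by ring] at this
  linarith

/-- the logarithmic derivative of `P` far to the right -/
lemma logDeriv_P {s : ℂ} (h : 2 ≤ s.re) : ‖logDeriv D.P s‖ ≤ D.p := by
  have h0 : ∀ j : Fin D.p, 1 ≤ ‖s + D.sh j * I - 1‖ := by
    intro j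
    have h1 := Complex.abs_re_le_norm (s + D.sh j * I - 1)
    have h2 : (s + D.sh j * I - 1).re = s.re - 1 := by simp
    rw [h2, abs_of_nonneg (by linarith)] at h1
    linarith
  have h1 : logDeriv D.P s = ∑ j, logDeriv (fun z : ℂ => z + D.sh j * I - 1) s :=
    logDeriv_prod (f := fun (j : Fin D.p) (z : ℂ) => z + D.sh j * I - 1)
      (fun j _ => norm_pos_iff.1 (lt_of_lt_of_le one_pos (h0 j))) (fun j _ => by fun_prop)
  rw [h1]
  calc ‖∑ j, logDeriv (fun z : ℂ => z + D.sh j * I - 1) s‖ ≤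
      ∑ j, ‖logDeriv (fun z : ℂ => z + D.sh j * I - 1) s‖ := norm_sum_le _ _
    _ ≤ ∑ _j : Fin D.p, (1 : ℝ) := by
        refine Finset.sum_le_sum fun j _ => ?_
        have h2 : logDeriv (fun z : ℂ => z + D.sh j * I - 1) s = 1 / (s + D.sh j * I - 1) := by
          rw [logDeriv_apply]
          congr 1
          have : (fun z : ℂ => z + D.sh j * I - 1) = fun z => z + (D.sh j * I - 1) := by
            funext z
            ring
          rw [this, deriv_add_const, deriv_id'']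
        rw [h2, norm_div, norm_one, div_le_one (by linarith [h0 j])]
        exact h0 j
    _ = D.p := by simp

end Pool.Agent.N967.P
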