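import Mathlib
import Pool.Agent.N967.D.Core

set_option autoImplicit false

/-!
# Linear independence of the ordinates and common zeros of shifted zeta functions
-/

namespace Pool.Agent.N967.P.Z

open Complex MeasureTheory Filter Topology

/-- integer relations -/
def LIs (A : Set ℝ) : Prop := ∀ (S : Finset ℝ) (m : ℝ → ℤ), (S : Set ℝ) ⊆ A →
  ∑ γ ∈ S, (m γ : ℝ) * γ = 0 → ∀ γ ∈ S, m γ = 0

lemma lis_iff (A : Set ℝ) : LIs A ↔ LinearIndependent ℚ (fun γ : A => (γ : ℝ)) := by
  have h0 : LinearIndependent ℚ (fun γ : A => (γ : ℝ)) ↔ LinearIndepOn ℚ (id : ℝ → ℝ) A := Iff.rfl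
  have h1 : LinearIndepOn ℚ (id : ℝ → ℝ) A ↔ LinearIndepOn ℤ (id : ℝ → ℝ) A := by
    unfold LinearIndepOn
    exact (LinearIndependent.iff_fractionRing ℤ ℚ).symm
  rw [h0, h1, linearIndepOn_iff']
  unfold LIs
  constructor
  · intro h S m hS h2
    refine h S m hS ?_
    simpa using h2
  · intro h S m hS h2
    refine h S m hS ?_
    simpa using h2

/-- integer combinations of at least three elements are not combinations of at most two -/
lemma comb {A : Set ℝ} (hLI : LIs A) {S : Finset ℝ} (hS : (S : Set ℝ) ⊆ A) (hc : 3 ≤ S.card) {m : ℝ → ℤ}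
    (hm : ∀ γ ∈ S, m γ ≠ 0) {u v : ℝ} (hu : u ∈ A) (hv : v ∈ A) (c d : ℤ) :
    ∑ γ ∈ S, (m γ : ℝ) * γ ≠ c * u + d * v := by
  classical
  intro h
  obtain ⟨γ0, h0, h1⟩ : ∃ γ0 ∈ S, γ0 ∉ ({u, v} : Finset ℝ) := by
    by_contra hcon
    push Not at hcon
    have h2 : S ⊆ ({u, v} : Finset ℝ) := hcon
    have h3 := Finset.card_le_card h2
    have h4 := Finset.card_le_two (a := u) (b := v)
    omega
  have hT : ((S ∪ {u, v} : Finset ℝ) : Set ℝ) ⊆ A := by
    intro x hx
    rw [Finset.coe_union, Set.mem_union] at hx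
    rcases hx with hx | hx
    · exact hS hx
    · rw [Finset.mem_coe, Finset.mem_insert, Finset.mem_singleton] at hx
      rcases hx with rfl | rfl
      · exact hu
      · exact hv
  have key := hLI (S ∪ {u, v}) (fun γ => (if γ ∈ S then m γ else 0) - (if γ = u then c else 0) - (if γ = v then d else 0))
    hT ?_ γ0 (Finset.mem_union_left _ h0)
  · have h2 : γ0 ≠ u := fun h => h1 (by rw [h]; simp)
    have h3 : γ0 ≠ v := fun h => h1 (by rw [h]; simp)
    rw [if_pos h0, if_neg h2, if_neg h3] at key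
    exact hm γ0 h0 (by linarith)
  · have e1 : ∑ γ ∈ S ∪ {u, v}, (((if γ ∈ S then m γ else 0 : ℤ) : ℝ)) * γ = ∑ γ ∈ S, (m γ : ℝ) * γ := by
      rw [← Finset.sum_subset (Finset.subset_union_left (s₁ := S) (s₂ := {u, v})) (fun x _ hx => by simp [hx])]
      exact Finset.sum_congr rfl fun x hx => by rw [if_pos hx]
    have e2 : ∑ γ ∈ S ∪ {u, v}, (((if γ = u then c else 0 : ℤ) : ℝ)) * γ = c * u := by
      rw [Finset.sum_eq_single u]
      · rw [if_pos rfl]
      · intro x _ hx
        rw [if_neg hx]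
        simp
      · intro h3
        exact absurd (Finset.mem_union_right _ (by simp)) h3
    have e3 : ∑ γ ∈ S ∪ {u, v}, (((if γ = v then d else 0 : ℤ) : ℝ)) * γ = d * v := by
      rw [Finset.sum_eq_single v]
      · rw [if_pos rfl]
      · intro x _ hx
        rw [if_neg hx]
        simp
      · intro h3
        exact absurd (Finset.mem_union_right _ (by simp)) h3
    have e4 : ∀ γ ∈ S ∪ {u, v}, ((((if γ ∈ S then m γ else 0) - (if γ = u then c else 0) -
        (if γ = v then d else 0) : ℤ) : ℝ)) * γ = (((if γ ∈ S then m γ else 0 : ℤ) : ℝ)) * γ -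
        (((if γ = u then c else 0 : ℤ) : ℝ)) * γ - (((if γ = v then d else 0 : ℤ) : ℝ)) * γ := by
      intro γ _
      push_cast
      ring
    rw [Finset.sum_congr rfl e4, Finset.sum_sub_distrib, Finset.sum_sub_distrib, e1, e2, e3, h]
    ring

/-- the positive ordinates of the nontrivial zeros -/
def Gam : Set ℝ := {γ : ℝ | 0 < γ ∧ ∃ s : ℂ, (0 < s.re ∧ s.re < 1) ∧ s.im = γ ∧ riemannZeta s = 0}

/-- integer combinations of at least three different ordinates -/
def Tau : Set ℝ := {τ : ℝ | ∃ (S : Finset ℝ) (m : ℝ → ℤ), (S : Set ℝ) ⊆ Gam ∧ 3 ≤ S.card ∧ (∀ γ ∈ S, m γ ≠ 0) ∧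
  τ = ∑ γ ∈ S, (m γ : ℝ) * γ}

/-- no common zeros of `ζ(s)` and `ζ(s + iτ)` -/
def NC (τ : ℝ) : Prop := ∀ s : ℂ, 0 < s.re → s.re < 1 → riemannZeta s = 0 → riemannZeta (s + τ * I) ≠ 0

/-- the Riemann hypothesis -/
def RHs : Prop := ∀ s : ℂ, 0 < s.re → s.re < 1 → riemannZeta s = 0 → s.re = 1 / 2

lemma zeta_eq : (1 : DirichletCharacter ℂ 1).LFunction = riemannZeta := DirichletCharacter.LFunction_modOne_eq

lemma inf_ord (B : ℝ) : ∃ γ ∈ Gam, B < γ := by
  obtain ⟨s, h0, h1, h2, h3⟩ := D.inf_zero (1 : DirichletCharacter ℂ 1) (max B 0)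
  rw [zeta_eq] at h3
  exact ⟨s.im, ⟨(le_max_right _ _).trans_lt h2, s, ⟨h0, h1⟩, rfl, h3⟩, (le_max_left _ _).trans_lt h2⟩

lemma conj_zero {s : ℂ} (h1 : s.re < 1) (h : riemannZeta s = 0) : riemannZeta ((starRingEnd ℂ) s) = 0 := by
  have hs : s ≠ 1 := by
    rintro rfl
    simp at h1
  have h2 := Pool.Agent.R311.LFunction_conj (1 : DirichletCharacter ℂ 1) s hs
  have h3 : (1 : DirichletCharacter ℂ 1)⁻¹ = 1 := inv_one
  rw [h3, zeta_eq, h] at h2
  simpa using h2

lemma abs_mem {s : ℂ} (h0 : 0 < s.re) (h1 : s.re < 1) (h : riemannZeta s = 0) (him : s.im ≠ 0) : |s.im| ∈ Gam := by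
  rcases lt_or_gt_of_ne him with h2 | h2
  · rw [abs_of_neg h2]
    exact ⟨by linarith, (starRingEnd ℂ) s, ⟨by simpa using h0, by simpa using h1⟩, by simp, conj_zero h1 h⟩
  · rw [abs_of_pos h2]
    exact ⟨h2, s, ⟨h0, h1⟩, rfl, h⟩

lemma tau_nonempty : Tau.Nonempty := by
  classical
  obtain ⟨g1, hg1, -⟩ := inf_ord 0
  obtain ⟨g2, hg2, h12⟩ := inf_ord g1
  obtain ⟨g3, hg3, h23⟩ := inf_ord g2
  have hc3 : ({g1, g2, g3} : Finset ℝ).card = 3 := by
    rw [Finset.card_insert_of_notMem, Finset.card_insert_of_notMem, Finset.card_singleton]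
    · simp only [Finset.mem_singleton]
      exact h23.ne
    · simp only [Finset.mem_insert, Finset.mem_singleton, not_or]
      exact ⟨h12.ne, (h12.trans h23).ne⟩
  refine ⟨_, {g1, g2, g3}, fun _ => 1, ?_, hc3.ge, fun _ _ => one_ne_zero, rfl⟩
  intro x hx
  simp only [Finset.coe_insert, Finset.coe_singleton, Set.mem_insert_iff, Set.mem_singleton_iff] at hx
  rcases hx with rfl | rfl | rfl <;> assumption

/-- linear independence and common zeros -/
theorem li_iff_nc (hRH : RHs) : LIs Gam ↔ ∀ τ ∈ Tau, NC τ := by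
  classical
  constructor
  · rintro hLI τ ⟨S, m, hS, hc, hm, hτ⟩ s h0 h1 hs hs'
    have hcomb : ∀ u ∈ Gam, ∀ v ∈ Gam, ∀ c d : ℤ, τ ≠ c * u + d * v := by
      intro u hu v hv c d
      rw [hτ]
      exact comb hLI hS hc hm hu hv c d
    have hab : ∀ x : ℝ, ∃ c : ℤ, x = c * |x| := by
      intro x
      rcases le_total 0 x with h | h
      · exact ⟨1, by rw [abs_of_nonneg h]; simp⟩
      · exact ⟨-1, by rw [abs_of_nonpos h]; simp⟩
    obtain ⟨g, hg⟩ : S.Nonempty := Finset.card_pos.1 (by omega)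
    have hre : (s + τ * I).re = s.re := by simp
    have him : (s + τ * I).im = s.im + τ := by simp
    obtain ⟨c, hc'⟩ := hab (s.im + τ)
    obtain ⟨d, hd'⟩ := hab s.im
    by_cases h2 : s.im = 0
    · by_cases h3 : s.im + τ = 0
      · refine hcomb g (hS hg) g (hS hg) 0 0 ?_
        rw [h2, zero_add] at h3
        simp [h3]
      · have h4 := abs_mem (s := s + τ * I) (by rwa [hre]) (by rwa [hre]) hs' (by rwa [him])
        rw [him] at h4
        refine hcomb _ h4 _ h4 c 0 ?_
        rw [← hc', h2]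
        simp
    · have h5 := abs_mem h0 h1 hs h2
      have h9 : ((-d : ℤ) : ℝ) * |s.im| = -s.im := by
        push_cast
        rw [neg_mul, ← hd']
      by_cases h3 : s.im + τ = 0
      · refine hcomb _ h5 _ h5 0 (-d) ?_
        rw [h9]
        push_cast
        linarith
      · have h4 := abs_mem (s := s + τ * I) (by rwa [hre]) (by rwa [hre]) hs' (by rwa [him])
        rw [him] at h4
        refine hcomb _ h4 _ h5 c (-d) ?_
        rw [← hc', h9]
        ring
  · intro h S m hS hsum γ hγ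
    by_contra hne
    set S' : Finset ℝ := S.filter fun γ => m γ ≠ 0 with hS'def
    have hγ' : γ ∈ S' := Finset.mem_filter.2 ⟨hγ, hne⟩
    have hS'G : (S' : Set ℝ) ⊆ Gam := fun x hx => hS (Finset.mem_filter.1 hx).1
    have hsum' : ∑ γ ∈ S', (m γ : ℝ) * γ = 0 := by
      rw [← hsum]
      refine Finset.sum_subset (Finset.filter_subset _ _) fun x hx hx' => ?_
      have : m x = 0 := by
        by_contra h1
        exact hx' (Finset.mem_filter.2 ⟨hx, h1⟩)
      rw [this]
      simp
    -- two large ordinates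
    obtain ⟨B, hB⟩ : ∃ B : ℝ, ∀ x ∈ S', x ≤ B := ⟨∑ x ∈ S', |x|, fun x hx =>
      (le_abs_self x).trans (Finset.single_le_sum (f := fun x => |x|) (fun _ _ => abs_nonneg _) hx)⟩
    obtain ⟨ga, hga, hBa⟩ := inf_ord B
    obtain ⟨gb, hgb, hab⟩ := inf_ord ga
    have haS : ga ∉ S' := fun h => absurd (hB ga h) (by linarith)
    have hbS : gb ∉ S' := fun h => absurd (hB gb h) (by linarith)
    have hab' : ga ≠ gb := hab.ne
    have hbT : gb ∉ insert ga S' := by
      rw [Finset.mem_insert, not_or]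
      exact ⟨hab'.symm, hbS⟩
    have hcard : 3 ≤ (insert gb (insert ga S')).card := by
      rw [Finset.card_insert_of_notMem hbT, Finset.card_insert_of_notMem haS]
      have : 0 < S'.card := Finset.card_pos.2 ⟨γ, hγ'⟩
      omega
    have hTG : ((insert gb (insert ga S') : Finset ℝ) : Set ℝ) ⊆ Gam := by
      intro x hx
      rw [Finset.mem_coe, Finset.mem_insert, Finset.mem_insert] at hx
      rcases hx with rfl | rfl | hx
      · exact hgb
      · exact hga
      · exact hS'G hx
    set m' : ℝ → ℤ := fun x => if x = ga then 1 else if x = gb then -1 else m x with hm'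
    have hm'0 : ∀ x ∈ insert gb (insert ga S'), m' x ≠ 0 := by
      intro x hx
      rw [hm']
      simp only
      split_ifs with h1 h2
      · exact one_ne_zero
      · norm_num
      · rw [Finset.mem_insert, Finset.mem_insert] at hx
        rcases hx with h3 | h3 | h3
        · exact absurd h3 h2
        · exact absurd h3 h1
        · exact (Finset.mem_filter.1 h3).2
    have hτeq : ∑ x ∈ insert gb (insert ga S'), (m' x : ℝ) * x = ga - gb := by
      rw [Finset.sum_insert hbT, Finset.sum_insert haS]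
      have h1 : ∑ x ∈ S', (m' x : ℝ) * x = ∑ x ∈ S', (m x : ℝ) * x := by
        refine Finset.sum_congr rfl fun x hx => ?_
        have h2 : x ≠ ga := fun h => haS (h ▸ hx)
        have h3 : x ≠ gb := fun h => hbS (h ▸ hx)
        rw [hm']
        simp only
        rw [if_neg h2, if_neg h3]
      rw [h1, hsum', hm']
      simp only
      rw [if_neg hab'.symm]
      simp only [if_true]
      push_cast
      ring
    have h1 := h (ga - gb) ⟨_, m', hTG, hcard, hm'0, hτeq.symm⟩
    obtain ⟨-, sa, ⟨a0, a1⟩, a2, a3⟩ := hga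
    obtain ⟨-, sb, ⟨b0, b1⟩, b2, b3⟩ := hgb
    have h2 : sb + ((ga - gb : ℝ) : ℂ) * I = sa := by
      apply Complex.ext
      · simp [hRH sa a0 a1 a3, hRH sb b0 b1 b3]
      · simp [a2, b2]
    exact h1 sb b0 b1 b3 (by rw [h2]; exact a3)

/-! ### the Riemann hypothesis of Mathlib -/

lemma strip_of_zero {s : ℂ} (h0 : riemannZeta s = 0) (ht : ¬ ∃ n : ℕ, s = -2 * (n + 1)) : 0 < s.re ∧ s.re < 1 := by
  have hs0 : s ≠ 0 := by
    rintro rfl
    rw [riemannZeta_zero] at h0
    norm_num at h0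
  have hΛ : completedRiemannZeta s = 0 := by
    rw [riemannZeta_def_of_ne_zero hs0, div_eq_zero_iff] at h0
    rcases h0 with h | h
    · exact h
    · rw [Gammaℝ_eq_zero_iff] at h
      obtain ⟨n, hn⟩ := h
      rcases n with _ | n
      · simp at hn; exact absurd hn hs0
      · exact absurd ⟨n, by rw [hn]; push_cast; ring⟩ ht
  have h1 : s.re < 1 := by
    by_contra hc
    exact riemannZeta_ne_zero_of_one_le_re (not_lt.1 hc) h0
  refine ⟨?_, h1⟩
  by_contra hc
  have hs1 : (1 : ℂ) - s ≠ 0 := by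
    intro h
    have := congrArg Complex.re h
    simp at this
    linarith
  have h2 : completedRiemannZeta (1 - s) = 0 := by rw [completedRiemannZeta_one_sub, hΛ]
  have h3 : riemannZeta (1 - s) = 0 := by rw [riemannZeta_def_of_ne_zero hs1, h2, zero_div]
  exact riemannZeta_ne_zero_of_one_le_re (s := 1 - s) (by simp; linarith) h3

lemma rhs_iff : RiemannHypothesis ↔ RHs := by
  constructor
  · intro h s h0 h1 hs
    refine h s hs ?_ ?_
    · rintro ⟨n, hn⟩
      rw [hn] at h0
      simp at h0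
      have : (0 : ℝ) ≤ n := Nat.cast_nonneg n
      linarith
    · intro h2
      rw [h2] at h1
      simp at h1
  · intro h s h0 ht _
    obtain ⟨h1, h2⟩ := strip_of_zero h0 ht
    exact h s h1 h2 h0

end Pool.Agent.N967.P.Z
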