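import Mathlib
import Pool.Agent.N967.P.PQ

set_option autoImplicit false

/-!
# The polynomials `P` and `Q`: continuity and differentiability
-/

namespace Pool.Agent.N967.P

open Complex MeasureTheory Filter Topology

@[fun_prop] lemma P_diff' (D : Dat) : Differentiable ℂ D.P := P_diff

@[fun_prop] lemma Q_diff' (D : Dat) : Differentiable ℂ D.Q := Q_diff

@[fun_prop] lemma P_cont (D : Dat) : Continuous D.P := P_diff.continuous

@[fun_prop] lemma Q_cont (D : Dat) : Continuous D.Q := Q_diff.continuous

example (D : Dat) (t : ℝ) : ContinuousAt (fun t : ℝ => D.P (1 / 2 + t * I)) t := by fun_prop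

example (D : Dat) (s z : ℂ) (L : ℝ) : DifferentiableAt ℂ (fun s => D.P (s - z / L)) s := by fun_prop

lemma P_half_ne {D : Dat} (t : ℝ) : D.P (1 / 2 + t * I) ≠ 0 := P_ne (by norm_num)

end Pool.Agent.N967.P
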