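import Mathlib
import Pool.Agent.N967.App3
import Pool.Agent.N967.P.PQ2

set_option autoImplicit false

/-!
# Baez-Duarte's distance for general L-functions: the exact approximation on every line (helper769)
-/

namespace Pool.Agent.N967.P

open Pool.Agent.N967.G (KR KerB S_real S_kern S_opt S_lf S_kerL S_sh)

open Complex MeasureTheory Set Filter Topology
open Pool.Agent.H295R2 (contour_shift vertical_integrable integrable_decay)

namespace App

/-- stretched exponential decay beats all powers -/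
lemma dec {c : ℝ} (hc : 0 < c) (k : ℕ) : ∃ B : ℝ, 0 < B ∧ ∀ u : ℝ, 0 ≤ u →
    Real.exp (-(c * u ^ (19 / 20 : ℝ))) ≤ B / (1 + u) ^ k := by
  refine ⟨2 ^ k * (1 + (Nat.factorial (2 * k) : ℝ) / c ^ (2 * k)), by positivity, fun u hu => ?_⟩
  set x : ℝ := c * u ^ (19 / 20 : ℝ) with hx
  have hx0 : 0 ≤ x := by positivity
  have h1 : x ^ (2 * k) / (Nat.factorial (2 * k) : ℝ) ≤ Real.exp x := Real.pow_div_factorial_le_exp x hx0 (2 * k)
  have h2 : (1 : ℝ) ≤ Real.exp x := Real.one_le_exp hx0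
  rw [Real.exp_neg, ← one_div, div_le_div_iff₀ (Real.exp_pos _) (by positivity), one_mul]
  have h0 : 0 ≤ (Nat.factorial (2 * k) : ℝ) / c ^ (2 * k) := by positivity
  rcases le_total u 1 with h | h
  · calc (1 + u) ^ k ≤ 2 ^ k := by gcongr; linarith
      _ = 2 ^ k * (1 + 0) * 1 := by ring
      _ ≤ 2 ^ k * (1 + (Nat.factorial (2 * k) : ℝ) / c ^ (2 * k)) * Real.exp x := by gcongr
  · have h3 : u ^ k ≤ (u ^ (19 / 20 : ℝ)) ^ (2 * k) := by
      rw [← Real.rpow_natCast (u ^ (19 / 20 : ℝ)) (2 * k), ← Real.rpow_mul hu, ← Real.rpow_natCast u k]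
      refine Real.rpow_le_rpow_of_exponent_le h ?_
      push_cast
      have : (0 : ℝ) ≤ k := Nat.cast_nonneg k
      linarith
    have h4 : (u ^ (19 / 20 : ℝ)) ^ (2 * k) = x ^ (2 * k) / c ^ (2 * k) := by
      rw [hx, mul_pow]; field_simp
    have h5 : x ^ (2 * k) ≤ (Nat.factorial (2 * k) : ℝ) * Real.exp x := by
      rw [div_le_iff₀ (by positivity)] at h1
      linarith
    calc (1 + u) ^ k ≤ (2 * u) ^ k := by gcongr; linarith
      _ = 2 ^ k * u ^ k := by rw [mul_pow]
      _ ≤ 2 ^ k * (x ^ (2 * k) / c ^ (2 * k)) := by rw [← h4]; gcongr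
      _ ≤ 2 ^ k * (((Nat.factorial (2 * k) : ℝ) * Real.exp x) / c ^ (2 * k)) := by gcongr
      _ = 2 ^ k * ((Nat.factorial (2 * k) : ℝ) / c ^ (2 * k)) * Real.exp x := by ring
      _ ≤ 2 ^ k * (1 + (Nat.factorial (2 * k) : ℝ) / c ^ (2 * k)) * Real.exp x := by
          gcongr
          linarith

/-- the bound of an admissible kernel in a right half plane, with any power -/
lemma ker_any {κ : ℂ → ℂ} (h : Ker κ) (k : ℕ) {b : ℝ} (hb : 0 ≤ b) : ∃ B : ℝ, 0 < B ∧
    ∀ z : ℂ, -b ≤ z.re → ‖κ z‖ ≤ B / (1 + |z.im|) ^ k := by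
  obtain ⟨-, -, c, C, hc, hC, h1, h2⟩ := h
  obtain ⟨B, hB, hdec⟩ := dec hc k
  refine ⟨C * Real.exp b * B, by positivity, fun z hz => ?_⟩
  have h3 := hdec |z.im| (abs_nonneg _)
  have h4 : (1 : ℝ) ≤ Real.exp b := Real.one_le_exp hb
  have h5 : ‖κ z‖ ≤ C * Real.exp b * Real.exp (-(c * |z.im| ^ (19 / 20 : ℝ))) := by
    rcases le_total 0 z.re with h0 | h0
    · refine (h1 z h0).trans ?_
      gcongr
      nlinarith
    · refine (h2 z h0).trans ?_
      gcongr
      linarith
  refine h5.trans ?_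
  calc C * Real.exp b * Real.exp (-(c * |z.im| ^ (19 / 20 : ℝ)))
      ≤ C * Real.exp b * (B / (1 + |z.im|) ^ k) := by gcongr
    _ = C * Real.exp b * B / (1 + |z.im|) ^ k := by ring

lemma half {y : ℝ} : 1 / (1 + |y|) ≤ (1 + |y|) ^ (-(1 / 2 : ℝ)) := by
  have hp : 1 ≤ 1 + |y| := by linarith [abs_nonneg y]
  rw [one_div, ← Real.rpow_neg_one]
  exact Real.rpow_le_rpow_of_exponent_le hp (by norm_num)

/-- two lines to the left of the pole -/
lemma shift_any {F : ℂ → ℂ} {a b B : ℝ} (ha : a < 0) (hb : b < 0)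
    (hd : ∀ z : ℂ, min a b ≤ z.re → z.re ≤ max a b → DifferentiableAt ℂ F z)
    (hB : ∀ z : ℂ, min a b ≤ z.re → z.re ≤ max a b → ‖F z‖ ≤ B * (1 + |z.im|) ^ (-(1 / 2 : ℝ))) :
    ∫ y : ℝ, F (a + y * I) / (a + y * I) = ∫ y : ℝ, F (b + y * I) / (b + y * I) := by
  rcases le_total a b with h | h
  · rw [min_eq_left h, max_eq_right h] at hd hB
    exact App3Aux.shift_left h hb hd hB
  · rw [min_eq_right h, max_eq_left h] at hd hB
    exact (App3Aux.shift_left h ha hd hB).symm

/-- the integral of the kernel on every line to the left of the pole -/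
lemma ker_integral (hs : S_shift) {κ : ℂ → ℂ} (hκ : Ker κ) {R : ℝ} (hR : 0 < R) :
    ∫ y : ℝ, κ (((-R : ℝ) : ℂ) + y * I) / (((-R : ℝ) : ℂ) + y * I) = -(2 * Real.pi) := by
  obtain ⟨B, hB, hB1, hB2⟩ := App3Aux.ker_bounds hκ
  obtain ⟨B', hB', hB3⟩ := ker_any hκ 1 (b := R + 1 / 2) (by positivity)
  rw [← App2Aux.left_integral hs hκ.1 hκ.2.1 hB1 hB2]
  refine shift_any (B := B') (by linarith) (by norm_num) (fun z _ _ => hκ.1 z) ?_
  intro z hz _
  have h1 : -(R + 1 / 2) ≤ z.re := by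
    refine le_trans ?_ hz
    rw [le_min_iff]
    constructor <;> linarith
  refine (hB3 z h1).trans ?_
  rw [pow_one, div_eq_mul_one_div]
  gcongr
  exact half

end App

open App in
theorem app {D : Dat} (h : Rp D) (hs : Pool.Agent.N967.S_shift) : S_app D := by
  intro κ hκ L hL N hN
  obtain ⟨B, hB, hB1, hB2⟩ := App3Aux.ker_bounds hκ
  obtain ⟨μ, σ1, hσ1, hser⟩ := h.ser
  have hm : Differentiable ℂ κ := hκ.1
  have hm0 : κ 0 = 1 := hκ.2.1
  have hL0 : 0 < L := by linarith
  set b : ℝ := L * (σ1 + 1) with hb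
  have hb0 : 0 < b := by positivity
  set W : ℝ → ℂ := fun x => ∫ y : ℝ, κ (((-b : ℝ) : ℂ) + y * I) / (((-b : ℝ) : ℂ) + y * I) *
      Complex.exp ((((-b : ℝ) : ℂ) + y * I) * x) with hW
  refine ⟨fun n => μ n * (-(1 / (2 * Real.pi)) * W (Real.log n / L)), fun R hR t => ?_⟩
  set s : ℂ := 1 / 2 + t * I with hsd
  have hsre : s.re = 1 / 2 := by simp [hsd]
  have hsim : s.im = t := by simp [hsd]
  have hre : ∀ z : ℂ, (s - z / L).re = 1 / 2 - z.re / L := by
    intro z
    rw [Complex.sub_re, hsre, Complex.div_ofReal_re]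
  have him : ∀ z : ℂ, (s - z / L).im = t - z.im / L := by
    intro z
    rw [Complex.sub_im, hsim, Complex.div_ofReal_im]
  -- growth in the strip between the lines
  set R0 : ℝ := min R b with hR0
  set R1 : ℝ := max R b with hR1
  have hR0p : 0 < R0 := lt_min hR hb0
  have hR1p : 0 < R1 := lt_max_of_lt_left hR
  obtain ⟨C, k, hC, hfz⟩ := h.fzg (R0 / L) (by positivity)
  obtain ⟨B', hB', hB3⟩ := ker_any hκ (k + 1) (b := R1) hR1p.le
  set F : ℂ → ℂ := fun z => κ z * D.fz (s - z / L) with hF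
  set Q : ℝ := 3 / 2 + R1 / L + |t| with hQ
  have hQ0 : 0 < Q := by positivity
  have hrange : ∀ z : ℂ, z.re ≤ -R0 → 1 / 2 + R0 / L ≤ (s - z / L).re := by
    intro z hz
    rw [hre]
    have h1 : z.re / L ≤ -R0 / L := by gcongr
    have h2 : -R0 / L = -(R0 / L) := by ring
    linarith
  have hFB : ∀ z : ℂ, -R1 ≤ z.re → z.re ≤ -R0 →
      ‖F z‖ ≤ (B' * (C * Q ^ k)) * (1 + |z.im|) ^ (-(1 / 2 : ℝ)) := by
    intro z hz hz'
    have h1 := hfz _ (hrange z hz')
    have h2 : 1 + ‖s - z / L‖ ≤ Q * (1 + |z.im|) := by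
      have e0 := Complex.norm_le_abs_re_add_abs_im (s - z / L)
      rw [hre, him] at e0
      have e1 : |t - z.im / L| ≤ |t| + |z.im / L| := abs_sub _ _
      have e2 : |z.im / L| ≤ |z.im| := by
        rw [abs_div, abs_of_pos hL0]
        exact div_le_self (abs_nonneg _) (by linarith)
      have e3 : |1 / 2 - z.re / L| ≤ 1 / 2 + R1 / L := by
        have e4 : z.re / L ≤ 0 := div_nonpos_of_nonpos_of_nonneg (by linarith) hL0.le
        have e5 : -R1 / L ≤ z.re / L := by gcongr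
        have e6 : -R1 / L = -(R1 / L) := by ring
        rw [abs_of_nonneg (by linarith)]
        linarith
      have e7 : 0 ≤ R1 / L := by positivity
      have e8 : 1 + ‖s - z / L‖ ≤ Q + |z.im| := by
        rw [hQ]
        linarith
      have e9 : |z.im| ≤ Q * |z.im| := by
        have : 1 ≤ Q := by
          rw [hQ]
          linarith [abs_nonneg t]
        nlinarith [abs_nonneg z.im]
      linarith
    simp only [hF]
    rw [norm_mul]
    have hp : 0 < 1 + |z.im| := by positivity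
    calc ‖κ z‖ * ‖D.fz (s - z / L)‖
        ≤ (B' / (1 + |z.im|) ^ (k + 1)) * (C * (1 + ‖s - z / L‖) ^ k) := by
          have := hB3 z hz
          gcongr
      _ ≤ (B' / (1 + |z.im|) ^ (k + 1)) * (C * (Q * (1 + |z.im|)) ^ k) := by gcongr
      _ = (B' * (C * Q ^ k)) * (1 / (1 + |z.im|)) := by
          rw [mul_pow, pow_succ]
          field_simp
      _ ≤ _ := by
          gcongr
          exact half
  have hFd : ∀ z : ℂ, z.re ≤ -R0 → DifferentiableAt ℂ F z := by
    intro z hz'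
    have h1 := hrange z hz'
    have h1' : 0 < R0 / L := by positivity
    have h2 : DifferentiableAt ℂ D.fz (s - z / L) := by
      unfold Dat.fz
      exact DifferentiableAt.div (by fun_prop) (h.base.diff _ (by linarith)) (h.zero _ (by linarith))
    have h3 : DifferentiableAt ℂ (fun z : ℂ => s - z / L) z := by fun_prop
    have h4 : DifferentiableAt ℂ (D.fz ∘ (fun z : ℂ => s - z / L)) z := DifferentiableAt.comp z h2 h3
    exact (hm z).mul h4
  have hmin : min (-b) (-R) = -R1 := by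
    rw [hR1, min_neg_neg, max_comm]
  have hmax : max (-b) (-R) = -R0 := by
    rw [hR0, max_neg_neg, min_comm]
  have hsh : (∫ y : ℝ, F (((-b : ℝ) : ℂ) + y * I) / (((-b : ℝ) : ℂ) + y * I)) =
      ∫ y : ℝ, F (((-R : ℝ) : ℂ) + y * I) / (((-R : ℝ) : ℂ) + y * I) := by
    refine shift_any (B := B' * (C * Q ^ k)) (by linarith) (by linarith) (fun z _ hz => hFd z ?_)
      (fun z hz hz' => hFB z ?_ ?_)
    · rwa [hmax] at hz
    · rwa [hmin] at hz
    · rwa [hmax] at hz'
  -- the sum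
  set g : ℝ → ℂ := fun y => κ (((-b : ℝ) : ℂ) + y * I) / (((-b : ℝ) : ℂ) + y * I) with hg
  have hkb : ∀ x : ℝ, 0 < x → ∃ Bx : ℝ, ∀ z : ℂ, z.re = -x → ‖κ z‖ ≤ Bx * (1 + |z.im|) ^ (-(1 / 2 : ℝ)) := by
    intro x hx
    obtain ⟨Bx, hBx, hx1⟩ := ker_any hκ 1 (b := x) hx.le
    refine ⟨Bx, fun z hz => (hx1 z hz.ge).trans ?_⟩
    rw [pow_one, div_eq_mul_one_div]
    gcongr
    exact half
  have hgint : Integrable g := by
    obtain ⟨Bx, hx1⟩ := hkb b hb0
    exact AppAux.line_integrable (F := κ) (x := -b) (B := Bx) (by linarith) (fun z _ => hm z) hx1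
  set T : ℕ → ℝ → ℂ := fun n y => g y * LSeries.term μ (s - (((-b : ℝ) : ℂ) + y * I) / L) n with hT
  have hre2 : ∀ y : ℝ, (s - (((-b : ℝ) : ℂ) + y * I) / L).re = σ1 + 3 / 2 := by
    intro y
    rw [hre]
    have : (((-b : ℝ) : ℂ) + y * I).re = -b := by simp
    rw [this, hb]
    field_simp
    ring
  have hTeq : ∀ n : ℕ, n ≠ 0 → ∀ y : ℝ, T n y = μ n * (n : ℂ) ^ (-s) *
      (g y * Complex.exp ((((-b : ℝ) : ℂ) + y * I) * ((Real.log n / L : ℝ) : ℂ))) := by
    intro n hn y
    have hn' : (n : ℂ) ≠ 0 := by exact_mod_cast hn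
    simp only [hT]
    rw [LSeries.term_of_ne_zero hn, Complex.cpow_sub _ _ hn', Complex.cpow_neg]
    have e1 : (n : ℂ) ^ ((((-b : ℝ) : ℂ) + y * I) / L) =
        Complex.exp ((((-b : ℝ) : ℂ) + y * I) * ((Real.log n / L : ℝ) : ℂ)) := by
      rw [Complex.cpow_def_of_ne_zero hn', ← Complex.natCast_log]
      congr 1
      push_cast
      ring
    rw [← e1]
    have e2 : (n : ℂ) ^ s ≠ 0 := by
      rw [Complex.cpow_def_of_ne_zero hn']
      exact Complex.exp_ne_zero _
    have e3 : (n : ℂ) ^ ((((-b : ℝ) : ℂ) + y * I) / L) ≠ 0 := by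
      rw [Complex.cpow_def_of_ne_zero hn']
      exact Complex.exp_ne_zero _
    field_simp
  have hTnorm : ∀ n : ℕ, ∀ y : ℝ, ‖T n y‖ = ‖LSeries.term μ (((σ1 + 3 / 2 : ℝ) : ℂ)) n‖ * ‖g y‖ := by
    intro n y
    simp only [hT]
    rw [norm_mul, LSeries.norm_term_eq, LSeries.norm_term_eq, hre2, Complex.ofReal_re, mul_comm]
  have hgc : Continuous g := by
    simp only [hg]
    refine Continuous.div ?_ (by fun_prop) ?_
    · exact hm.continuous.comp (by fun_prop)
    · intro y h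
      have := congrArg Complex.re h
      simp at this
      linarith
  have hTint : ∀ n : ℕ, Integrable (T n) := by
    intro n
    rcases Nat.eq_zero_or_pos n with rfl | hn
    · have : T 0 = fun _ => 0 := by
        funext y
        simp [hT]
      rw [this]
      exact integrable_zero _ _ _
    · refine Integrable.mono (hgint.norm.const_mul (‖LSeries.term μ (((σ1 + 3 / 2 : ℝ) : ℂ)) n‖)) ?_ ?_
      · have : T n = fun y => μ n * (n : ℂ) ^ (-s) *
            (g y * Complex.exp ((((-b : ℝ) : ℂ) + y * I) * ((Real.log n / L : ℝ) : ℂ))) := by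
          funext y
          exact hTeq n hn.ne' y
        rw [this]
        refine Continuous.aestronglyMeasurable ?_
        exact continuous_const.mul (hgc.mul (by fun_prop))
      · refine Eventually.of_forall fun y => ?_
        rw [hTnorm, Real.norm_of_nonneg (by positivity)]
  have hmu : ∀ y : ℝ, HasSum (fun n => T n y) (g y * D.fz (s - (((-b : ℝ) : ℂ) + y * I) / L)) := by
    intro y
    obtain ⟨h1, h2⟩ := hser (s - (((-b : ℝ) : ℂ) + y * I) / L) (by rw [hre2]; linarith)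
    rw [h2]
    exact (Summable.hasSum h1).mul_left _
  have hsummable : Summable fun n => ∫ y : ℝ, ‖T n y‖ := by
    have h1 : Summable fun n => ‖LSeries.term μ (((σ1 + 3 / 2 : ℝ) : ℂ)) n‖ := by
      have := (hser ((σ1 + 3 / 2 : ℝ) : ℂ) (by rw [Complex.ofReal_re]; linarith)).1
      exact Summable.norm this
    refine (h1.mul_right (∫ y : ℝ, ‖g y‖)).congr fun n => ?_
    rw [← integral_const_mul]
    simp_rw [hTnorm]
  have hsum := hasSum_integral_of_summable_integral_norm hTint hsummable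
  have htsum : ∀ y : ℝ, ∑' n, T n y = F (((-b : ℝ) : ℂ) + y * I) / (((-b : ℝ) : ℂ) + y * I) := by
    intro y
    rw [(hmu y).tsum_eq]
    simp only [hF, hg]
    ring
  simp_rw [htsum] at hsum
  have hTI : ∀ n : ℕ, n ≠ 0 → ∫ y : ℝ, T n y = μ n * (n : ℂ) ^ (-s) * W (Real.log n / L) := by
    intro n hn
    simp_rw [hTeq n hn]
    rw [integral_const_mul]
  have hzero : ∀ n ∉ Finset.Icc 1 N, ∫ y : ℝ, T n y = 0 := by
    intro n hn
    rcases Nat.eq_zero_or_pos n with rfl | hn0
    · simp [hT]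
    · have hnN : N + 1 ≤ n := by
        by_contra h
        exact hn (Finset.mem_Icc.mpr ⟨hn0, by omega⟩)
      rw [hTI n hn0.ne']
      have : W (Real.log n / L) = 0 := by
        refine AppAux.weight_zero hm hB2 hb0 ?_
        rw [one_le_div hL0]
        refine hN.trans (Real.log_le_log (by positivity) ?_)
        exact_mod_cast hnN
      rw [this, mul_zero]
  have hfin : HasSum (fun n => ∫ y : ℝ, T n y) (∑ n ∈ Finset.Icc 1 N, ∫ y : ℝ, T n y) :=
    hasSum_sum_of_ne_finset_zero hzero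
  have heq := hsum.unique hfin
  -- conclusion
  have hDP : DP N (fun n => μ n * (-(1 / (2 * Real.pi)) * W (Real.log n / L))) s =
      -(1 / (2 * Real.pi)) * ∑ n ∈ Finset.Icc 1 N, ∫ y : ℝ, T n y := by
    unfold DP
    rw [Finset.mul_sum]
    refine Finset.sum_congr rfl fun n hn => ?_
    have hn0 : n ≠ 0 := by
      have := (Finset.mem_Icc.mp hn).1
      omega
    rw [hTI n hn0]
    ring
  rw [hDP, ← heq, hsh]
  have hpi : (Real.pi : ℂ) ≠ 0 := by exact_mod_cast Real.pi_ne_zero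
  -- the two integrals on the line `re z = -R`
  have e1 : ((-R : ℝ) : ℂ) = -(R : ℂ) := by push_cast; ring
  have hone := ker_integral hs hκ hR
  have hR01 : -R ≤ -R0 ∧ -R1 ≤ -R := ⟨by linarith [min_le_left R b], by linarith [le_max_left R b]⟩
  have hKK : Integrable (KR κ R) := by
    obtain ⟨Bx, hx1⟩ := hkb R hR
    have h1 := AppAux.line_integrable (F := κ) (x := -R) (B := Bx) (by linarith) (fun z _ => hm z) hx1
    rw [e1] at h1
    exact (h1.const_mul (1 / (2 * Real.pi : ℂ))).neg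
  have e2 : ∀ y : ℝ, (1 / 2 : ℂ) + ((R / L : ℝ) : ℂ) + ((t + -(y / L) : ℝ) : ℂ) * I =
      s - (-(R : ℂ) + y * I) / L := by
    intro y
    rw [hsd]
    push_cast
    ring
  have hKF : Integrable (fun y : ℝ => KR κ R y * D.Fr (R / L) (-(y / L)) t) := by
    have h1 := AppAux.line_integrable (F := F) (x := -R) (B := (B' * (C * Q ^ k)))
      (by linarith) (fun z hz => hFd z (by rw [hz]; linarith))
      (fun z hz => hFB z (by rw [hz]; exact hR01.2) (by rw [hz]; exact hR01.1))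
    rw [e1] at h1
    refine (h1.const_mul (-(1 / (2 * Real.pi : ℂ)) * D.L (1 / 2 + t * I))).congr
      (Eventually.of_forall fun y => ?_)
    simp only [KR, Dat.Fr, hF, e2]
    ring
  unfold Dat.HR
  have hsplit : ∀ y : ℝ, KR κ R y * (1 - D.Fr (R / L) (-(y / L)) t) =
      KR κ R y - KR κ R y * D.Fr (R / L) (-(y / L)) t := by
    intro y
    ring
  simp_rw [hsplit]
  rw [integral_sub hKK hKF]
  have h1 : ∫ y : ℝ, KR κ R y = 1 := by
    have : KR κ R = fun y : ℝ => -(1 / (2 * Real.pi : ℂ)) *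
        (κ (((-R : ℝ) : ℂ) + y * I) / (((-R : ℝ) : ℂ) + y * I)) := by
      funext y
      simp only [KR, e1]
      ring
    rw [this, integral_const_mul, hone]
    field_simp
  have h2 : ∫ y : ℝ, KR κ R y * D.Fr (R / L) (-(y / L)) t = D.L s * (-(1 / (2 * Real.pi)) *
      ∫ y : ℝ, F (((-R : ℝ) : ℂ) + y * I) / (((-R : ℝ) : ℂ) + y * I)) := by
    rw [← mul_assoc, ← integral_const_mul]
    congr 1
    funext y
    simp only [KR, Dat.Fr, hF, e1, e2]
    ring
  rw [h1, h2]

end Pool.Agent.N967.P
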