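import Pool.Agent.N967.P.PQ2
import Pool.Agent.N967.Low3

set_option autoImplicit false

/-!
# Burnol's lower bound with multiplicities, general L-functions
-/

namespace Pool.Agent.N967.P

open Pool.Agent.N967.G (KR KerB S_real S_kern S_opt S_lf S_kerL S_sh)

open Complex MeasureTheory Filter Topology
open Pool.Agent.Y23 (Lg)

namespace Low3

lemma norm_D (D : Dat) {s : ℂ} (hs : s.re = 1 / 2) :
    ‖D.P s / (D.Q s * s)‖ ^ 2 = 1 / ‖s‖ ^ 2 := by
  have h1 := P_half (D := D) hs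
  have h0 : ‖s‖ ≠ 0 := by
    rw [norm_ne_zero_iff]
    intro h
    rw [h] at hs
    simp at hs
  have h2 : ‖D.Q s‖ ≠ 0 := norm_ne_zero_iff.2 (Q_ne (by rw [hs]; norm_num))
  rw [norm_div, norm_mul, h1]
  have h3 : ‖D.Q s‖ / (‖D.Q s‖ * ‖s‖) = 1 / ‖s‖ := by
    field_simp
  rw [h3, div_pow, one_pow]

end Low3

open Pool.Agent.N967.L3 in
/-- **Burnol's lower bound** for general L-functions. -/
theorem low3 {D : Dat} (_h : Rp D) (h1 : S_jj D) (h2 : Pool.Agent.N967.S_hpol) : S_low3 D := by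
  classical
  intro S0 hS0 ε hε
  set S := S0.filter (fun s => 1 ≤ D.mu s) with hSdef
  have hS : ∀ s ∈ S, D.IsZ s ∧ 1 ≤ D.mu s := fun s hs => by
    rw [hSdef, Finset.mem_filter] at hs
    exact ⟨hS0 s hs.1, hs.2⟩
  have hsum : ∑ s ∈ S0, (D.mu s : ℝ) ^ 2 / ‖s‖ ^ 2 = ∑ s ∈ S, (D.mu s : ℝ) ^ 2 / ‖s‖ ^ 2 := by
    rw [hSdef, Finset.sum_filter_of_ne]
    intro s _ hs
    by_contra h
    have h0 : D.mu s = 0 := by omega
    rw [h0] at hs
    simp at hs
  rw [hsum]
  set B : ℝ := ∑ s ∈ S, (D.mu s : ℝ) ^ 2 / ‖s‖ ^ 2 with hB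
  have hB0 : 0 ≤ B := Finset.sum_nonneg fun s _ => by positivity
  set δ' : ℝ := min 1 (ε / (4 * (B + 1))) with hδ'
  have hd0 : 0 < δ' := lt_min one_pos (by positivity)
  have hd1 : δ' ≤ 1 := min_le_left _ _
  have hd2 : δ' * B ≤ ε / 4 := by
    have e1 : δ' ≤ ε / (4 * (B + 1)) := min_le_right _ _
    rw [le_div_iff₀ (by positivity)] at e1
    nlinarith
  obtain ⟨K, hK⟩ := h1 (δ' / 8) (by positivity) (by linarith)
  -- the weight
  have hT : Tendsto (fun c0 : ℝ => ∑ s ∈ S, ‖D.P s / (D.Q s * s) * gw c0 K s‖ ^ 2 *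
      (D.mu s : ℝ) ^ 2) atTop (𝓝 B) := by
    have e1 : B = ∑ s ∈ S, ‖D.P s / (D.Q s * s) * 1‖ ^ 2 * (D.mu s : ℝ) ^ 2 := by
      rw [hB]
      refine Finset.sum_congr rfl fun s hs => ?_
      rw [mul_one, Low3.norm_D D (hS s hs).1.2]
      ring
    rw [e1]
    refine tendsto_finsetSum _ fun s _ => ?_
    exact (((tendsto_const_nhds.mul (gw_tend K s)).norm).pow 2).mul_const _
  obtain ⟨c0, hc1, hc2⟩ := ((hT.eventually (lt_mem_nhds (show B - ε / 4 < B by linarith))).and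
    (eventually_ge_atTop 1)).exists
  obtain ⟨C, hC0, hC⟩ := hK c0 hc2
  obtain ⟨E, hE0, hE⟩ := core S (fun s => hpol (D.mu s)) (fun s => s.im) D.mu
    (fun s => (D.mu s : ℝ) ^ 2)
    (fun s k => iteratedDeriv k (fun z => D.P z / (D.Q z * z) * gw c0 K z) s)
    (by
      intro s hs r hr hsr h
      exact hsr (Complex.ext ((hS s hs).1.2.trans (hS r hr).1.2.symm) h))
    (fun s hs => (hS s hs).2)
    (fun s hs => (h2 (D.mu s) (hS s hs).2).1)
    (fun s hs => (h2 (D.mu s) (hS s hs).2).2.1)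
    (fun s hs => by
      rw [(h2 (D.mu s) (hS s hs).2).2.2 _ (h2 (D.mu s) (hS s hs).2).1]
      exact (h2 (D.mu s) (hS s hs).2).2.1)
    (η := δ' / 32) (by positivity) (by linarith)
  simp only [iteratedDeriv_zero] at hE
  -- large N
  have tlog : Tendsto (fun N : ℕ => Real.log N) atTop atTop :=
    Real.tendsto_log_atTop.comp tendsto_natCast_atTop_atTop
  have t1 : Tendsto (fun N : ℕ => E / Real.log N) atTop (𝓝 0) := tendsto_const_nhds.div_atTop tlog
  have t2 : Tendsto (fun N : ℕ => E * C * Real.exp (-(δ' / 16 * Real.log N))) atTop (𝓝 0) := by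
    have e1 : Tendsto (fun N : ℕ => Real.exp (-(δ' / 16 * Real.log N))) atTop (𝓝 0) :=
      Real.tendsto_exp_neg_atTop_nhds_zero.comp (tlog.const_mul_atTop (by positivity))
    simpa using e1.const_mul (E * C)
  have t3 := t1.add t2
  rw [add_zero] at t3
  obtain ⟨N0, hN0⟩ := eventually_atTop.1 ((t3.eventually (gt_mem_nhds (show (0 : ℝ) < ε / 4 by linarith))).and
    (tlog.eventually (eventually_ge_atTop (max 1 B))))
  refine ⟨max 2 N0, le_max_left _ _, fun N hN a => ?_⟩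
  have hN2 : 2 ≤ N := (le_max_left _ _).trans hN
  obtain ⟨u1, u2⟩ := hN0 N ((le_max_right _ _).trans hN)
  have hl1 : 1 ≤ Real.log N := (le_max_left _ _).trans u2
  have hl2 : B ≤ Real.log N := (le_max_right _ _).trans u2
  have hlog0 : 0 < Real.log N := by linarith
  by_cases herr : D.err N a ≤ 1
  swap
  · push Not at herr
    nlinarith
  obtain ⟨J, j1, j2, j3, j4, j5, j6⟩ := hC N a hN2 herr
  have hl : 1 ≤ (1 + δ') * Real.log N := by nlinarith
  have key := hE ((1 + δ') * Real.log N) (C * (N : ℝ) ^ (1 / 4 + δ' / 8)) (D.err N a) J hl j1 j2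
    (fun v hv => (j3 v hv).trans (le_of_eq (by ring))) j4 j5 (fun s hs k hk => j6 s (hS s hs).1 k hk)
  have hN0' : (0 : ℝ) < N := by positivity
  have k1 : E / ((1 + δ') * Real.log N) ≤ E / Real.log N := by
    apply div_le_div_of_nonneg_left hE0 hlog0
    nlinarith
  have k2 : E * (C * (N : ℝ) ^ (1 / 4 + δ' / 8)) * Real.exp (-(1 / 4 - δ' / 32) * ((1 + δ') * Real.log N)) ≤
      E * C * Real.exp (-(δ' / 16 * Real.log N)) := by
    rw [Real.rpow_def_of_pos hN0']
    calc E * (C * Real.exp (Real.log N * (1 / 4 + δ' / 8))) * Real.exp (-(1 / 4 - δ' / 32) * ((1 + δ') * Real.log N))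
        = E * C * (Real.exp (Real.log N * (1 / 4 + δ' / 8)) *
            Real.exp (-(1 / 4 - δ' / 32) * ((1 + δ') * Real.log N))) := by ring
      _ ≤ _ := by
        rw [← Real.exp_add]
        refine mul_le_mul_of_nonneg_left ?_ (by positivity)
        rw [Real.exp_le_exp]
        have e1 : Real.log N * (1 / 4 + δ' / 8) + -(1 / 4 - δ' / 32) * ((1 + δ') * Real.log N) =
          Real.log N * (-(δ' / 8) + δ' / 32 + δ' * δ' / 32) := by ring
        have e2 : -(δ' / 8) + δ' / 32 + δ' * δ' / 32 ≤ -(δ' / 16) := by nlinarith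
        rw [e1]
        nlinarith
  have k3 : B - ε / 2 ≤ (1 + δ') * Real.log N * D.err N a := by linarith
  have k4 : (1 + δ') * (B - ε) ≤ (1 + δ') * (D.err N a * Real.log N) := by nlinarith
  exact le_of_mul_le_mul_left k4 (by linarith)

end Pool.Agent.N967.P
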