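import Mathlib
import Pool.Agent.N967.P.PQ2
import Pool.Agent.N967.P.Ax
import Pool.Agent.N558.P.Off
import Pool.Agent.N967.App

set_option autoImplicit false

/-!
# Baez-Duarte's distance for general L-functions: distances with values in `[0, ∞]`, the dichotomy
-/

namespace Pool.Agent.N967.P

open Pool.Agent.N967.G (KR KerB S_real S_kern S_opt S_lf S_kerL S_sh)

open Complex MeasureTheory Filter Topology

/-- the square of the distance; no convergence is assumed -/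
noncomputable def Dat.dE (D : Dat) (N : ℕ) : ENNReal :=
  ⨅ a : ℕ → ℂ, ENNReal.ofReal (1 / (2 * Real.pi)) * ∫⁻ t : ℝ, ENNReal.ofReal (D.ig N a t)

lemma ig_nonneg (D : Dat) (N : ℕ) (a : ℕ → ℂ) (t : ℝ) : 0 ≤ D.ig N a t := by
  unfold Dat.ig
  positivity

lemma err_nonneg (D : Dat) (N : ℕ) (a : ℕ → ℂ) : 0 ≤ D.err N a := by
  unfold Dat.err
  exact mul_nonneg (by positivity) (integral_nonneg fun t => ig_nonneg D N a t)

lemma dd_nonneg (D : Dat) (N : ℕ) : 0 ≤ D.dd N := Real.iInf_nonneg fun a => err_nonneg D N a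

theorem dE_eq {D : Dat} (hi : S_int D) (N : ℕ) : D.dE N = ENNReal.ofReal (D.dd N) := by
  have h1 : ∀ a : ℕ → ℂ, ENNReal.ofReal (1 / (2 * Real.pi)) * ∫⁻ t : ℝ, ENNReal.ofReal (D.ig N a t) =
      ENNReal.ofReal (D.err N a) := by
    intro a
    unfold Dat.err
    rw [ENNReal.ofReal_mul (by positivity),
      ofReal_integral_eq_lintegral_ofReal (hi N a) (Eventually.of_forall fun t => ig_nonneg D N a t)]
  unfold Dat.dE Dat.dd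
  simp only [h1]
  refine (Monotone.map_ciInf_of_continuousAt (f := ENNReal.ofReal) ?_ ?_ ?_).symm
  · exact ENNReal.continuous_ofReal.continuousAt
  · exact fun x y h => ENNReal.ofReal_le_ofReal h
  · exact ⟨0, by rintro _ ⟨a, rfl⟩; exact err_nonneg D N a⟩

theorem asymE {D : Dat} (hi : S_int D) (h : S_asym D) :
    Tendsto (fun N : ℕ => D.dE N * ENNReal.ofReal (Real.log N)) atTop
      (𝓝 (ENNReal.ofReal (∑' ρ : D.ZZ, (D.mu ρ : ℝ) ^ 2 / ‖(ρ : ℂ)‖ ^ 2))) := by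
  have h1 := ENNReal.tendsto_ofReal h
  refine h1.congr fun N => ?_
  rw [dE_eq hi, ENNReal.ofReal_mul (dd_nonneg D N)]

theorem offE {D : Dat} (h : S_off D) {ρ : ℂ} (h1 : 1 / 2 < ρ.re) (h2 : D.Zs ρ = 0) :
    ∃ c : ℝ, 0 < c ∧ ∀ N : ℕ, ENNReal.ofReal c ≤ D.dE N := by
  obtain ⟨c, hc, H⟩ := h ρ h1 h2
  refine ⟨1 / (2 * Real.pi) * c, by positivity, fun N => le_iInf fun a => ?_⟩
  rw [ENNReal.ofReal_mul (by positivity)]
  gcongr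
  exact H N a

lemma no_limit {D : Dat} {c : ℝ} (hc : 0 < c) (h : ∀ N : ℕ, ENNReal.ofReal c ≤ D.dE N) {ℓ : ENNReal} (hℓ : ℓ ≠ ⊤) :
    ¬ Tendsto (fun N : ℕ => D.dE N * ENNReal.ofReal (Real.log N)) atTop (𝓝 ℓ) := by
  intro ht
  have h1 : Tendsto (fun N : ℕ => ENNReal.ofReal (c * Real.log N)) atTop (𝓝 ⊤) := by
    refine ENNReal.tendsto_ofReal_atTop.comp ?_
    exact (Real.tendsto_log_atTop.comp tendsto_natCast_atTop_atTop).const_mul_atTop hc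
  have h2 : (⊤ : ENNReal) ≤ ℓ := by
    refine le_of_tendsto_of_tendsto' h1 ht fun N => ?_
    rw [ENNReal.ofReal_mul hc.le]
    gcongr
    exact h N
  exact hℓ (top_le_iff.1 h2)

/-- the dichotomy for the L-function `D`, where `RH` is its Riemann hypothesis -/
def Dich (D : Dat) (RH : Prop) : Prop :=
  (RH → (∀ (N : ℕ) (a : ℕ → ℂ), Integrable (D.ig N a)) ∧
    Summable (fun ρ : D.ZZ => (D.mu ρ : ℝ) ^ 2 / ‖(ρ : ℂ)‖ ^ 2) ∧
    Tendsto (fun N : ℕ => D.dE N * ENNReal.ofReal (Real.log N)) atTop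
      (𝓝 (ENNReal.ofReal (∑' ρ : D.ZZ, (D.mu ρ : ℝ) ^ 2 / ‖(ρ : ℂ)‖ ^ 2)))) ∧
  (¬ RH → ∃ c : ℝ, 0 < c ∧ ∀ N : ℕ, ENNReal.ofReal c ≤ D.dE N) ∧
  (RH ↔ ∃ ℓ : ENNReal, ℓ ≠ ⊤ ∧ Tendsto (fun N : ℕ => D.dE N * ENNReal.ofReal (Real.log N)) atTop (𝓝 ℓ))

theorem dich_of {D : Dat} {RH : Prop} (h1 : RH → S_int D ∧ S_sum D ∧ S_asym D) (h2 : S_off D)
    (h3 : ¬ RH → ∃ ρ : ℂ, 1 / 2 < ρ.re ∧ D.Zs ρ = 0) : Dich D RH := by
  have a1 : RH → (∀ (N : ℕ) (a : ℕ → ℂ), Integrable (D.ig N a)) ∧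
    Summable (fun ρ : D.ZZ => (D.mu ρ : ℝ) ^ 2 / ‖(ρ : ℂ)‖ ^ 2) ∧
    Tendsto (fun N : ℕ => D.dE N * ENNReal.ofReal (Real.log N)) atTop
      (𝓝 (ENNReal.ofReal (∑' ρ : D.ZZ, (D.mu ρ : ℝ) ^ 2 / ‖(ρ : ℂ)‖ ^ 2))) := by
    intro h
    obtain ⟨hi, hs, ha⟩ := h1 h
    exact ⟨hi, hs, asymE hi ha⟩
  have a2 : ¬ RH → ∃ c : ℝ, 0 < c ∧ ∀ N : ℕ, ENNReal.ofReal c ≤ D.dE N := by
    intro h
    obtain ⟨ρ, h4, h5⟩ := h3 h
    exact offE h2 h4 h5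
  refine ⟨a1, a2, ⟨fun h => ⟨_, ENNReal.ofReal_ne_top, (a1 h).2.2⟩, ?_⟩⟩
  rintro ⟨ℓ, hℓ, ht⟩
  by_contra h
  obtain ⟨c, hc, H⟩ := a2 h
  exact no_limit hc H hℓ ht

end Pool.Agent.N967.P
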