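import Pool.Agent.N967.P.PQ2
import Pool.Agent.N967.PrL

set_option autoImplicit false

/-!
# Baez-Duarte's distance for general L-functions: the local limit at a zero (task BD5/prL, helper27)

Port of `Pool.Agent.N967.PrL` (helper186).
-/

namespace Pool.Agent.N967.P

open Pool.Agent.N967.G (KR KerB S_real S_kern S_opt S_lf S_kerL S_sh)

open Complex MeasureTheory Filter Topology
open Pool.Agent.Y23 (Lg)
open Pool.Agent.N967.PrL (qq den_ne one_le_den qq_norm qq_cont GG_cont)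

namespace PrL

variable {D : Dat}

lemma one_ne {t : ℝ} : ((1 / 2 : ℂ) + t * I) - 1 ≠ 0 := by
  intro h
  have := congrArg Complex.re h
  norm_num at this

lemma L_cont (h : Base D) : Continuous fun t : ℝ => D.L (1 / 2 + t * I) := by
  rw [continuous_iff_continuousAt]
  intro t
  have h1 : ContinuousAt D.Zs (1 / 2 + t * I) := (h.diff _ (by norm_num)).continuousAt
  have h2 : ContinuousAt (fun s : ℝ => (1 / 2 + s * I : ℂ)) t := by fun_prop
  unfold Dat.L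
  exact ContinuousAt.div (ContinuousAt.comp (f := fun s : ℝ => (1 / 2 + s * I : ℂ)) h1 h2)
    (by fun_prop) (P_half_ne t)

lemma fz_contAt (h : Rp D) {s : ℂ} (hs : 1 / 2 < s.re) : ContinuousAt D.fz s := by
  unfold Dat.fz
  exact ContinuousAt.div (by fun_prop) (h.base.diff s (by linarith)).continuousAt (h.zero s hs)

lemma Fr_cont (h : Rp D) {b : ℝ} (hb : 0 < b) : Continuous fun p : ℝ × ℝ => D.Fr b p.2 p.1 := by
  unfold Dat.Fr
  refine ((L_cont h.base).comp continuous_fst).mul ?_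
  rw [continuous_iff_continuousAt]
  intro p
  have h2 : ContinuousAt (fun p : ℝ × ℝ => (1 / 2 + b + ((p.1 + p.2 : ℝ) : ℂ) * I : ℂ)) p := by
    fun_prop
  exact ContinuousAt.comp (f := fun p : ℝ × ℝ => (1 / 2 + b + ((p.1 + p.2 : ℝ) : ℂ) * I : ℂ))
    (fz_contAt h (by simp; linarith)) h2

lemma Fr_cont' (h : Rp D) {L : ℝ} (hL : 0 < L) :
    Continuous fun p : ℝ × ℝ => D.Fr (1 / L) (-(p.2 / L)) p.1 := by
  have := Fr_cont h (b := 1 / L) (by positivity)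
  exact this.comp (f := fun p : ℝ × ℝ => (p.1, -(p.2 / L))) (by fun_prop)

lemma zs_an (h : Base D) {s : ℂ} (hs : 0 < s.re) : AnalyticAt ℂ D.Zs s := by
  have ho : IsOpen {s : ℂ | 0 < s.re} := isOpen_lt continuous_const Complex.continuous_re
  have hd : DifferentiableOn ℂ D.Zs {s : ℂ | 0 < s.re} :=
    fun z hz => (h.diff z hz).differentiableWithinAt
  exact hd.analyticAt (ho.mem_nhds hs)

lemma ord_ne_top (h : Rp D) {ρ : ℂ} (hρ : D.IsZ ρ) : analyticOrderAt D.Zs ρ ≠ ⊤ := by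
  intro htop
  rw [analyticOrderAt_eq_top] at htop
  have h1 : Tendsto (fun x : ℝ => ρ + (x : ℂ)) (𝓝[>] 0) (𝓝 ρ) := by
    have : Tendsto (fun x : ℝ => ρ + (x : ℂ)) (𝓝 0) (𝓝 (ρ + ((0 : ℝ) : ℂ))) :=
      ((continuous_const.add Complex.continuous_ofReal).tendsto 0)
    rw [Complex.ofReal_zero, add_zero] at this
    exact this.mono_left nhdsWithin_le_nhds
  obtain ⟨x, hx1, hx2⟩ := ((h1.eventually htop).and self_mem_nhdsWithin).exists
  refine h.zero (ρ + x) ?_ hx1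
  have hx2' : 0 < x := hx2
  rw [Complex.add_re, Complex.ofReal_re, hρ.2]
  linarith

lemma factor (h : Rp D) {ρ : ℂ} (hρ : D.IsZ ρ) : ∃ g : ℂ → ℂ, AnalyticAt ℂ g ρ ∧ g ρ ≠ 0 ∧
    ∀ᶠ z in 𝓝 ρ, D.Zs z = (z - ρ) ^ D.mu ρ * g z := by
  have h1 := ord_ne_top h hρ
  have h2 : 0 < ρ.re := by rw [hρ.2]; norm_num
  obtain ⟨g, hg, hg0, hev⟩ := ((zs_an h.base h2).analyticOrderAt_eq_natCast (n := D.mu ρ)).1
    (by rw [Dat.mu, Nat.cast_analyticOrderNatAt h1])
  exact ⟨g, hg, hg0, hev.mono (fun z hz => by simpa using hz)⟩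

lemma zero_eq {ρ : ℂ} (h : D.IsZ ρ) : ρ = 1 / 2 + (ρ.im : ℂ) * I := by
  apply Complex.ext
  · simp [h.2]
  · simp

/-- the local limit of the ratio -/
theorem Fr_lim (h : Rp D) {ρ : ℂ} (hρ : D.IsZ ρ) (x y : ℝ) :
    Tendsto (fun L : ℝ => D.Fr (1 / L) (-(y / L)) (ρ.im + x / L)) atTop
      (𝓝 (qq x y ^ D.mu ρ)) := by
  obtain ⟨g, hg, hg0, hev⟩ := factor h hρ
  have hinv : Tendsto (fun L : ℝ => ((L⁻¹ : ℝ) : ℂ)) atTop (𝓝 0) := by
    have := (Complex.continuous_ofReal.tendsto 0).comp (tendsto_inv_atTop_zero (𝕜 := ℝ))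
    rw [Complex.ofReal_zero] at this
    exact this
  have hz : Tendsto (fun L : ℝ => ρ + x * I * ((L⁻¹ : ℝ) : ℂ)) atTop (𝓝 ρ) := by
    have := (hinv.const_mul (x * I)).const_add ρ
    simpa using this
  have hz' : Tendsto (fun L : ℝ => ρ + (1 + ((x - y : ℝ) : ℂ) * I) * ((L⁻¹ : ℝ) : ℂ)) atTop
      (𝓝 ρ) := by
    have := (hinv.const_mul (1 + ((x - y : ℝ) : ℂ) * I)).const_add ρ
    simpa using this
  have hpw : D.P ρ ≠ 0 := P_ne (by rw [hρ.2]; norm_num)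
  have hlim1 : Tendsto (fun L : ℝ => qq x y ^ D.mu ρ * (g (ρ + x * I * ((L⁻¹ : ℝ) : ℂ)) /
      g (ρ + (1 + ((x - y : ℝ) : ℂ) * I) * ((L⁻¹ : ℝ) : ℂ)))) atTop
      (𝓝 (qq x y ^ D.mu ρ * (g ρ / g ρ))) := by
    exact ((hg.continuousAt.tendsto.comp hz).div (hg.continuousAt.tendsto.comp hz') hg0).const_mul _
  have hlim2 : Tendsto (fun L : ℝ =>
      D.P (ρ + (1 + ((x - y : ℝ) : ℂ) * I) * ((L⁻¹ : ℝ) : ℂ)) /
        D.P (ρ + x * I * ((L⁻¹ : ℝ) : ℂ))) atTop (𝓝 (D.P ρ / D.P ρ)) :=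
    (((P_cont D).tendsto ρ).comp hz').div (((P_cont D).tendsto ρ).comp hz) hpw
  have hlim := hlim1.mul hlim2
  rw [div_self hg0, div_self hpw, mul_one, mul_one] at hlim
  refine hlim.congr' ?_
  filter_upwards [hz.eventually hev, hz'.eventually hev, eventually_gt_atTop 0] with L h1 h2 hL
  have hL' : (L : ℂ) ≠ 0 := by exact_mod_cast hL.ne'
  have e1 : (1 / 2 : ℂ) + ((ρ.im + x / L : ℝ) : ℂ) * I = ρ + x * I * ((L⁻¹ : ℝ) : ℂ) := by
    conv_rhs => rw [zero_eq hρ]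
    push_cast
    ring
  have e2 : (1 / 2 : ℂ) + ((1 / L : ℝ) : ℂ) + ((ρ.im + x / L + -(y / L) : ℝ) : ℂ) * I =
      ρ + (1 + ((x - y : ℝ) : ℂ) * I) * ((L⁻¹ : ℝ) : ℂ) := by
    conv_rhs => rw [zero_eq hρ]
    push_cast
    ring
  rw [Dat.Fr, e1, e2, Dat.L, Dat.fz, h1, h2, add_sub_cancel_left, add_sub_cancel_left]
  have hq : qq x y ^ D.mu ρ = (x * I * ((L⁻¹ : ℝ) : ℂ)) ^ D.mu ρ /
      ((1 + ((x - y : ℝ) : ℂ) * I) * ((L⁻¹ : ℝ) : ℂ)) ^ D.mu ρ := by
    rw [← div_pow, qq]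
    congr 1
    rw [mul_div_mul_right]
    rw [Complex.ofReal_inv]
    exact inv_ne_zero hL'
  rw [hq]
  simp only [div_eq_mul_inv, mul_inv]
  ring

/-- the uniform bound for the integrand -/
theorem bound (h : S_maj D) {κ : ℂ → ℂ} (hκ : Ker κ) (γ X : ℝ) (hX : 1 ≤ X) :
    ∃ K L0 : ℝ, 0 ≤ K ∧ 4 ≤ L0 ∧ ∀ L x y : ℝ, L0 ≤ L → |x| ≤ X →
      ‖KK κ y * (1 - D.Fr (1 / L) (-(y / L)) (γ + x / L))‖ ≤ K * (1 / (1 + |y|) ^ 8) := by
  obtain ⟨C, L0, hC, hL0, hm⟩ := h γ X hX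
  obtain ⟨c, A, hc, hA, hb⟩ := Cs.KK_bd hκ
  obtain ⟨E, hE, hmix⟩ := U3.mix hc hC
  obtain ⟨B, hB, hdec⟩ := U3.dec (half_pos hc)
  refine ⟨A * (1 + C) * Real.exp E * B, L0, by positivity, hL0, fun L x y hL hx => ?_⟩
  have h1 := hm L x y hL hx
  have h2 := hmix |y| (abs_nonneg y)
  have h3 := hdec |y| (abs_nonneg y)
  have h4 : (1 : ℝ) ≤ Real.exp (C * (1 + |y|) ^ (9 / 10 : ℝ)) := Real.one_le_exp (by positivity)
  have h5 : ‖1 - D.Fr (1 / L) (-(y / L)) (γ + x / L)‖ ≤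
      (1 + C) * Real.exp (C * (1 + |y|) ^ (9 / 10 : ℝ)) := by
    refine (norm_sub_le _ _).trans ?_
    rw [norm_one]
    linarith
  rw [norm_mul]
  calc ‖KK κ y‖ * ‖1 - D.Fr (1 / L) (-(y / L)) (γ + x / L)‖
      ≤ (A * Real.exp (-(c * |y| ^ (19 / 20 : ℝ)))) *
          ((1 + C) * Real.exp (C * (1 + |y|) ^ (9 / 10 : ℝ))) :=
        mul_le_mul (hb y) h5 (norm_nonneg _) (by positivity)
    _ ≤ (A * Real.exp (-(c * |y| ^ (19 / 20 : ℝ)))) *
          ((1 + C) * Real.exp (E + c / 2 * |y| ^ (19 / 20 : ℝ))) := by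
        gcongr
    _ = A * (1 + C) * Real.exp E * Real.exp (-(c / 2 * |y| ^ (19 / 20 : ℝ))) := by
        have e : Real.exp (-(c * |y| ^ (19 / 20 : ℝ))) * Real.exp (E + c / 2 * |y| ^ (19 / 20 : ℝ)) =
            Real.exp E * Real.exp (-(c / 2 * |y| ^ (19 / 20 : ℝ))) := by
          rw [← Real.exp_add, ← Real.exp_add]
          congr 1
          ring
        linear_combination (A * (1 + C)) * e
    _ ≤ A * (1 + C) * Real.exp E * (B / (1 + |y|) ^ 8) := by gcongr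
    _ = _ := by ring

lemma HH_meas (h : Rp D) {κ : ℂ → ℂ} (hκ : Ker κ) {L : ℝ} (hL : 0 < L) :
    StronglyMeasurable (D.HH κ L) := by
  have h1 : Continuous
      (Function.uncurry fun (t y : ℝ) => KK κ y * (1 - D.Fr (1 / L) (-(y / L)) t)) :=
    ((Cs.KK_cont hκ).comp continuous_snd).mul (continuous_const.sub (Fr_cont' h hL))
  exact h1.stronglyMeasurable.integral_prod_right

theorem HH_lim (h : S_maj D) (hR : Rp D) {κ : ℂ → ℂ} (hκ : Ker κ) {ρ : ℂ} (hρ : D.IsZ ρ) (x : ℝ) :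
    Tendsto (fun L : ℝ => D.HH κ L (ρ.im + x / L)) atTop (𝓝 (GG κ (D.mu ρ) x)) := by
  obtain ⟨K, L0, hK, hL0, hb⟩ := bound h hκ ρ.im (max |x| 1) (le_max_right _ _)
  refine tendsto_integral_filter_of_dominated_convergence (fun y => K * (1 / (1 + |y|) ^ 8)) ?_ ?_
    (U3.eight_int.const_mul K) ?_
  · filter_upwards [eventually_gt_atTop 0] with L hL
    have h1 : Continuous (fun y : ℝ => KK κ y * (1 - D.Fr (1 / L) (-(y / L)) (ρ.im + x / L))) :=
      (Cs.KK_cont hκ).mul (continuous_const.sub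
        ((Fr_cont' hR hL).comp (f := fun y : ℝ => (ρ.im + x / L, y)) (by fun_prop)))
    exact h1.aestronglyMeasurable
  · filter_upwards [eventually_ge_atTop L0] with L hL
    exact Eventually.of_forall fun y => hb L x y hL (le_max_left _ _)
  · refine Eventually.of_forall fun y => ?_
    exact ((Fr_lim hR hρ x y).const_sub 1).const_mul (KK κ y)

end PrL

/-- Task BD5/prL: the local limit at a zero. -/
theorem prL {D : Dat} (h : Rp D) (h1 : S_maj D) : S_prL D := by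
  intro κ hκ ρ X hX
  obtain ⟨K, L0, hK, hL0, hb⟩ := PrL.bound h1 hκ (ρ : ℂ).im X hX
  set J : ℝ := ∫ y : ℝ, K * (1 / (1 + |y|) ^ 8) with hJ
  have hJ0 : 0 ≤ J := integral_nonneg fun y => by positivity
  have hH : ∀ L x : ℝ, L0 ≤ L → |x| ≤ X → ‖D.HH κ L ((ρ : ℂ).im + x / L)‖ ≤ J := by
    intro L x hL hx
    exact norm_integral_le_of_norm_le (U3.eight_int.const_mul K)
      (Eventually.of_forall fun y => hb L x y hL hx)
  have hG : ∀ x : ℝ, |x| ≤ X → ‖GG κ (D.mu ρ) x‖ ≤ J := by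
    intro x hx
    refine le_of_tendsto (PrL.HH_lim h1 h hκ ρ.2 x).norm ?_
    filter_upwards [eventually_ge_atTop L0] with L hL
    exact hH L x hL hx
  have h0 : (0 : ℝ) = ∫ x in (-X)..X, (0 : ℝ) := by simp
  rw [h0]
  refine intervalIntegral.tendsto_integral_filter_of_dominated_convergence (fun _ => (J + J) ^ 2)
    ?_ ?_ intervalIntegrable_const ?_
  · filter_upwards [eventually_ge_atTop L0] with L hL
    have hL1 : 0 < L := by linarith
    have h1 : StronglyMeasurable (fun x : ℝ => D.HH κ L ((ρ : ℂ).im + x / L)) :=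
      (PrL.HH_meas h hκ hL1).comp_measurable (by fun_prop)
    have h2 : StronglyMeasurable (GG κ (D.mu ρ)) := (GG_cont hκ _).stronglyMeasurable
    exact ((h1.sub h2).norm.pow 2).aestronglyMeasurable
  · filter_upwards [eventually_ge_atTop L0] with L hL
    refine Eventually.of_forall fun x hx => ?_
    rw [Set.uIoc_of_le (by linarith)] at hx
    have hx' : |x| ≤ X := abs_le.2 ⟨hx.1.le, hx.2⟩
    rw [Real.norm_eq_abs, abs_of_nonneg (sq_nonneg _)]
    gcongr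
    exact (norm_sub_le _ _).trans (add_le_add (hH L x hL hx') (hG x hx'))
  · refine Eventually.of_forall fun x _ => ?_
    have h1 := (PrL.HH_lim h1 h hκ ρ.2 x).sub_const (GG κ (D.mu ρ) x)
    rw [sub_self] at h1
    have h2 := (h1.norm).pow 2
    simpa using h2

end Pool.Agent.N967.P
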