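import Mathlib
import Pool.Agent.N967.P.PQ2

set_option autoImplicit false

/-!
# The zeros of `D.Zs` near a height, and their number on the critical line
-/

namespace Pool.Agent.N967.P

open Pool.Agent.N967.G (KR KerB S_real S_kern S_opt S_lf S_kerL S_sh)

open Complex MeasureTheory Filter Topology
open Pool.Agent.Y23 (Lg one_le_Lg)

namespace Zn

lemma exp_Lg (t : ℝ) : Real.exp (Lg t) = 3 + |t| := by
  unfold Lg
  exact Real.exp_log (by positivity)

lemma Lg_near (t v : ℝ) (hv : |v| ≤ 1) : Lg (t + v) ≤ 2 * Lg t := by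
  have h1 : Lg (t + v) ≤ Lg t + Real.log 2 := by
    unfold Lg
    rw [← Real.log_mul (by positivity) (by norm_num)]
    refine Real.log_le_log (by positivity) ?_
    have := abs_add_le t v
    have := abs_nonneg t
    nlinarith
  have h2 : Real.log 2 ≤ 1 := by
    have := Real.log_two_lt_d9
    linarith
  linarith [one_le_Lg t]

end Zn

/-- the zeros near the height `τ` -/
theorem zn {D : Dat} (h : Ax D) (hl : S_lf) : S_zn D := by
  obtain ⟨C0, hC0, H⟩ := hl (17 / 8) (35 / 16) (9 / 4) (by norm_num) (by norm_num) (by norm_num)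
  obtain ⟨C1, k, hC1, hg⟩ := h.base.growth
  obtain ⟨C2, hC2, hb⟩ := h.bd
  set K : ℝ := |Real.log (C1 * 2 ^ k * C2)| with hK
  have hK0 : 0 ≤ K := abs_nonneg _
  have hKe : C1 * 2 ^ k * C2 ≤ Real.exp K := by
    have h1 : (0 : ℝ) < C1 * 2 ^ k * C2 := by positivity
    calc C1 * 2 ^ k * C2 = Real.exp (Real.log (C1 * 2 ^ k * C2)) := (Real.exp_log h1).symm
      _ ≤ Real.exp K := Real.exp_le_exp.2 (le_abs_self _)
  refine ⟨C0 * (k + K + 1), by positivity, fun τ => ?_⟩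
  have hL1 : 1 ≤ Lg τ := one_le_Lg τ
  set s0 : ℂ := 5 / 2 + τ * I with hs0
  have hre0 : s0.re = 5 / 2 := by simp [hs0]
  have hns0 : ‖s0‖ ≤ 5 / 2 + |τ| := by
    rw [hs0]
    refine (norm_add_le _ _).trans ?_
    rw [norm_mul, Complex.norm_I, mul_one, Complex.norm_real, Real.norm_eq_abs]
    norm_num
  have hre : ∀ s : ℂ, ‖s - s0‖ ≤ 9 / 4 → 1 / 4 ≤ s.re := by
    intro s hs
    have h1 := (Complex.abs_re_le_norm (s - s0)).trans hs
    rw [Complex.sub_re, hre0] at h1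
    have := abs_le.1 h1
    linarith [this.1]
  have hne : D.Zs s0 ≠ 0 := h.zero s0 (by rw [hre0]; norm_num)
  have hlow : 1 ≤ C2 * ‖D.Zs s0‖ := by
    have h1 := (hb s0 (by rw [hre0])).2
    unfold Dat.fz at h1
    rw [norm_div, div_le_iff₀ (norm_pos_iff.2 hne)] at h1
    refine le_trans ?_ h1
    have h2 := P_ge_right (D := D) (s := s0) zero_le_one (by rw [hre0]; norm_num)
    rwa [one_pow] at h2
  have hbd : ∀ s : ℂ, ‖s - s0‖ ≤ 9 / 4 → ‖D.Zs s‖ ≤ Real.exp ((k + K) * Lg τ) * ‖D.Zs s0‖ := by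
    intro s hs
    have h1 := hg s (hre s hs)
    have h2 : 1 + ‖s‖ ≤ 2 * Real.exp (Lg τ) := by
      have h3 : ‖s‖ ≤ ‖s - s0‖ + ‖s0‖ := by
        have := norm_add_le (s - s0) s0
        rwa [sub_add_cancel] at this
      rw [Zn.exp_Lg]
      have := abs_nonneg τ
      linarith
    have h4 : (1 + ‖s‖) ^ k ≤ 2 ^ k * Real.exp (k * Lg τ) := by
      calc (1 + ‖s‖) ^ k ≤ (2 * Real.exp (Lg τ)) ^ k := pow_le_pow_left₀ (by positivity) h2 k
        _ = 2 ^ k * Real.exp (k * Lg τ) := by rw [mul_pow, ← Real.exp_nat_mul]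
    have h5 : C1 * 2 ^ k * C2 ≤ Real.exp (K * Lg τ) :=
      hKe.trans (Real.exp_le_exp.2 (by nlinarith))
    calc ‖D.Zs s‖ ≤ C1 * (1 + ‖s‖) ^ k := h1
      _ ≤ C1 * (2 ^ k * Real.exp (k * Lg τ)) := by gcongr
      _ = C1 * 2 ^ k * Real.exp (k * Lg τ) * 1 := by ring
      _ ≤ C1 * 2 ^ k * Real.exp (k * Lg τ) * (C2 * ‖D.Zs s0‖) := by gcongr
      _ = (C1 * 2 ^ k * C2) * Real.exp (k * Lg τ) * ‖D.Zs s0‖ := by ring
      _ ≤ Real.exp (K * Lg τ) * Real.exp (k * Lg τ) * ‖D.Zs s0‖ := by gcongr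
      _ = Real.exp ((k + K) * Lg τ) * ‖D.Zs s0‖ := by
          rw [← Real.exp_add]
          congr 2
          ring
  obtain ⟨Z, hZ, hsum, hprod, hlog⟩ := H D.Zs s0 ((k + K) * Lg τ) (by positivity)
    (fun s hs => h.base.diff s (by linarith [hre s hs])) hne hbd
  have hC : C0 * ((k + K) * Lg τ) ≤ C0 * (k + K + 1) * Lg τ := by nlinarith
  refine ⟨Z, hZ, hsum.trans hC, ?_, ?_⟩
  · intro s s' hs hs'
    refine (hprod s s' hs hs').trans ?_
    have h1 : Real.exp (C0 * ((k + K) * Lg τ) * ‖s - s'‖) ≤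
        Real.exp (C0 * (k + K + 1) * Lg τ * ‖s - s'‖) :=
      Real.exp_le_exp.2 (mul_le_mul_of_nonneg_right hC (norm_nonneg _))
    have h2 : 0 ≤ ∏ ρ ∈ Z, ‖s - ρ‖ ^ analyticOrderNatAt D.Zs ρ :=
      Finset.prod_nonneg fun ρ _ => by positivity
    exact mul_le_mul_of_nonneg_right (mul_le_mul_of_nonneg_right h1 (norm_nonneg _)) h2
  · intro s hs hne'
    exact (hlog s hs hne').trans hC

namespace Zn

lemma mem_disc {D : Dat} {s : ℂ} {τ : ℝ} (hs : D.IsZ s) (h : |s.im - τ| ≤ 1 / 4) :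
    D.Zs s = 0 ∧ ‖s - (5 / 2 + τ * I)‖ ≤ 35 / 16 := by
  refine ⟨hs.1, ?_⟩
  have h1 : s - (5 / 2 + τ * I) = ((-2 : ℝ) : ℂ) + ((s.im - τ : ℝ) : ℂ) * I := by
    apply Complex.ext
    · simp [hs.2]; norm_num
    · simp
  rw [h1, Complex.norm_add_mul_I, Real.sqrt_le_left (by norm_num)]
  have h2 : (s.im - τ) ^ 2 ≤ (1 / 4) ^ 2 := sq_le_sq' (by linarith [(abs_le.1 h).1]) (abs_le.1 h).2
  nlinarith

end Zn

/-- finitely many zeros at bounded height, `O (log t)` zeros in a unit interval -/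
theorem cnt {D : Dat} (_h : Ax D) (hz : S_zn D) : S_cnt D := by
  obtain ⟨C, hC, hz⟩ := hz
  choose Z hZ hsum _ _ using hz
  refine ⟨fun R => ?_, 18 * C, by positivity, fun t S hS => ?_⟩
  · have hfin : (⋃ j ∈ Finset.Icc (-(⌈4 * |R|⌉ + 1)) (⌈4 * |R|⌉ + 1), ((Z ((j : ℝ) / 4) : Finset ℂ) : Set ℂ)).Finite :=
      Set.Finite.biUnion (Finset.finite_toSet _) fun j _ => Finset.finite_toSet _
    refine hfin.subset ?_
    rintro s ⟨hs, hR⟩
    have hr := abs_sub_round (4 * s.im)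
    have hR' : |s.im| ≤ |R| := hR.trans (le_abs_self R)
    have h4 : |4 * s.im| ≤ ⌈4 * |R|⌉ := by
      rw [abs_mul, abs_of_pos (by norm_num : (0 : ℝ) < 4)]
      exact le_trans (by linarith) (Int.le_ceil _)
    have hb : |((round (4 * s.im) : ℤ) : ℝ)| ≤ ((⌈4 * |R|⌉ + 1 : ℤ) : ℝ) := by
      have h5 : |((round (4 * s.im) : ℤ) : ℝ)| ≤ |4 * s.im| + |4 * s.im - (round (4 * s.im) : ℤ)| := by
        have := abs_sub_abs_le_abs_sub ((round (4 * s.im) : ℤ) : ℝ) (4 * s.im)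
        rw [abs_sub_comm] at this
        linarith
      push_cast
      linarith
    have hb' : |(round (4 * s.im) : ℤ)| ≤ ⌈4 * |R|⌉ + 1 := by exact_mod_cast hb
    rw [Set.mem_iUnion₂]
    refine ⟨round (4 * s.im), ?_, ?_⟩
    · rw [Finset.mem_Icc]
      exact abs_le.1 hb'
    · refine (hZ _ s).2 (Zn.mem_disc hs ?_)
      have : s.im - ((round (4 * s.im) : ℤ) : ℝ) / 4 = (4 * s.im - (round (4 * s.im) : ℤ)) / 4 := by ring
      rw [this, abs_div, abs_of_pos (by norm_num : (0 : ℝ) < 4)]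
      linarith
  · classical
    set J : Finset ℤ := Finset.Icc (-4) 4 with hJ
    have hmu : ∀ s : ℂ, (0 : ℝ) ≤ D.mu s := fun s => Nat.cast_nonneg _
    have hcov : ∀ s ∈ S, ∃ j ∈ J, s ∈ Z (t + (j : ℝ) / 4) := by
      intro s hs
      obtain ⟨hs1, hs2⟩ := hS s hs
      have hr := abs_sub_round (4 * (s.im - t))
      have hb : |((round (4 * (s.im - t)) : ℤ) : ℝ)| < 5 := by
        have h5 : |((round (4 * (s.im - t)) : ℤ) : ℝ)| ≤
            |4 * (s.im - t)| + |4 * (s.im - t) - (round (4 * (s.im - t)) : ℤ)| := by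
          have := abs_sub_abs_le_abs_sub ((round (4 * (s.im - t)) : ℤ) : ℝ) (4 * (s.im - t))
          rw [abs_sub_comm] at this
          linarith
        rw [abs_mul, abs_of_pos (by norm_num : (0 : ℝ) < 4)] at h5
        linarith
      have hb' : |(round (4 * (s.im - t)) : ℤ)| < 5 := by exact_mod_cast hb
      refine ⟨round (4 * (s.im - t)), ?_, ?_⟩
      · rw [hJ, Finset.mem_Icc]
        have := abs_lt.1 hb'
        omega
      · refine (hZ _ s).2 (Zn.mem_disc hs1 ?_)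
        have : s.im - (t + ((round (4 * (s.im - t)) : ℤ) : ℝ) / 4) =
            (4 * (s.im - t) - (round (4 * (s.im - t)) : ℤ)) / 4 := by ring
        rw [this, abs_div, abs_of_pos (by norm_num : (0 : ℝ) < 4)]
        linarith
    calc ∑ s ∈ S, (D.mu s : ℝ)
        ≤ ∑ s ∈ S, ∑ j ∈ J, (if s ∈ Z (t + (j : ℝ) / 4) then (D.mu s : ℝ) else 0) := by
          refine Finset.sum_le_sum fun s hs => ?_
          obtain ⟨j, hj, hsj⟩ := hcov s hs
          refine le_trans ?_ (Finset.single_le_sum (f := fun j : ℤ =>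
            if s ∈ Z (t + (j : ℝ) / 4) then (D.mu s : ℝ) else 0) (fun i _ => ?_) hj)
          · simp only [hsj, if_true, le_refl]
          · split_ifs
            · exact hmu s
            · exact le_refl _
      _ = ∑ j ∈ J, ∑ s ∈ S, (if s ∈ Z (t + (j : ℝ) / 4) then (D.mu s : ℝ) else 0) :=
          Finset.sum_comm
      _ ≤ ∑ j ∈ J, ∑ s ∈ Z (t + (j : ℝ) / 4), (D.mu s : ℝ) := by
          refine Finset.sum_le_sum fun j _ => ?_
          rw [← Finset.sum_filter]
          exact Finset.sum_le_sum_of_subset_of_nonneg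
            (fun s hs => (Finset.mem_filter.1 hs).2) (fun s _ _ => hmu s)
      _ ≤ ∑ j ∈ J, 2 * C * Lg t := by
          refine Finset.sum_le_sum fun j hj => (hsum _).trans ?_
          have hj' := Finset.mem_Icc.1 hj
          have h1 : |(j : ℝ) / 4| ≤ 1 := by
            rw [abs_le]
            have h2 : (-4 : ℝ) ≤ j := by exact_mod_cast hj'.1
            have h3 : (j : ℝ) ≤ 4 := by exact_mod_cast hj'.2
            constructor <;> linarith
          have := Zn.Lg_near t ((j : ℝ) / 4) h1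
          nlinarith
      _ = 18 * C * Lg t := by
          rw [Finset.sum_const, hJ]
          simp
          ring

end Pool.Agent.N967.P
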