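import Mathlib
import Pool.Agent.N967.P.PQ2
import Pool.Agent.N967.G.Rbase
import Pool.Agent.N967.G.Rser
import Pool.Agent.N967.G.Rzero
import Pool.Agent.N967.D.Sh

set_option autoImplicit false

/-!
# One primitive Dirichlet character: the data used in shifted products
-/

namespace Pool.Agent.N967.P

open Complex MeasureTheory Filter Topology
open Pool.Agent.N967.D (Lam Lam_diff Lam_ne Lam_eq Lam_one_ne fac one_raw gfac_ne)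
open Pool.Agent.W355.LJ (parD)
open Pool.Agent.TH839.NA (RawT RawTL)

section
variable {N : ℕ} [NeZero N] {χ : DirichletCharacter ℂ N}

theorem one_raw' (hχ : χ.IsPrimitive) : ∃ b c : ℕ → ℂ,
    RawTL 0 [(parD χ : ℂ)] (if N = 1 then 1 else 0) (N : ℝ) b c (Lam χ) := by
  obtain ⟨b, c, X, hr, σ, hσ⟩ := one_raw hχ
  have hX : X = Lam χ := by
    have h1 : AnalyticOnNhd ℂ X Set.univ := fun z _ => hr.entire.analyticAt z
    have h2 : AnalyticOnNhd ℂ (Lam χ) Set.univ := fun z _ => (Lam_diff hχ).analyticAt z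
    have h3 : X =ᶠ[𝓝 (((σ + 1 : ℝ)) : ℂ)] Lam χ := by
      have hmem : {s : ℂ | σ < s.re} ∈ 𝓝 ((σ + 1 : ℝ) : ℂ) := by
        refine (isOpen_lt continuous_const Complex.continuous_re).mem_nhds ?_
        show σ < ((σ + 1 : ℝ) : ℂ).re
        rw [Complex.ofReal_re]
        linarith
      filter_upwards [hmem] with z hz
      exact (hσ z (le_of_lt hz)).1
    funext s
    exact h1.eqOn_of_preconnected_of_eventuallyEq h2 isPreconnected_univ (Set.mem_univ _) h3 (Set.mem_univ s)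
  exact ⟨b, c, hX ▸ hr⟩

/-- the order of the pole -/
def rr (N : ℕ) : ℕ := if N = 1 then 1 else 0

/-- the data of one character -/
noncomputable def dc (χ : DirichletCharacter ℂ N) : G.Dat :=
  G.datOf (rr N) (N : ℝ) (fun j : Fin 1 => ([(parD χ : ℂ)] : List ℂ).get j) (Lam χ)

lemma raw_dc (hχ : χ.IsPrimitive) : ∃ b c : ℕ → ℂ,
    RawT 0 1 (rr N) (N : ℝ) (fun j : Fin 1 => ([(parD χ : ℂ)] : List ℂ).get j) b c (Lam χ) := one_raw' hχ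

lemma slow_dc (hχ : χ.IsPrimitive) : Pool.Agent.W169.HF.Slow (Lam χ) := by
  obtain ⟨b, c, h⟩ := raw_dc hχ
  exact h.slow

lemma fe_dc (hχ : χ.IsPrimitive) : Pool.Agent.W169.HF.Fe (Lam χ) := by
  obtain ⟨b, c, h⟩ := raw_dc hχ
  exact h.fe

lemma base_dc (hχ : χ.IsPrimitive) : G.Base (dc χ) := by
  obtain ⟨b, c, h⟩ := raw_dc hχ
  exact G.rbase _ _ _ _ _ _ _ _ h fun _ => Lam_one_ne hχ

lemma ser_dc (hχ : χ.IsPrimitive) : (∃ (b' : ℕ → ℂ) (σ1 : ℝ), 1 ≤ σ1 ∧ ∀ s : ℂ, σ1 < s.re →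
      LSeriesSummable b' s ∧ (dc χ).fz s = LSeries b' s) ∧
    ∃ C : ℝ, 0 < C ∧ ∀ s : ℂ, 5 / 2 ≤ s.re → ‖(dc χ).L s‖ ≤ C ∧ ‖(dc χ).fz s‖ ≤ C := by
  obtain ⟨b, c, h⟩ := raw_dc hχ
  exact G.rser _ _ _ _ _ _ _ _ h

lemma par_get (j : Fin 1) : -1 / 2 < (([(parD χ : ℂ)] : List ℂ).get j).re := by
  have h1 : ([(parD χ : ℂ)] : List ℂ).get j = (parD χ : ℂ) := by
    fin_cases j
    rfl
  rw [h1, Complex.ofReal_re]
  unfold parD
  split_ifs <;> norm_num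

lemma zero_dc (hχ : χ.IsPrimitive) :
    (∀ s : ℂ, 1 / 2 ≤ s.re → ((dc χ).Zs s = 0 ↔ Lam χ s = 0) ∧ (dc χ).mu s = analyticOrderNatAt (Lam χ) s) ∧
    ((∀ s : ℂ, Lam χ s = 0 → s.re = 1 / 2) → ∃ e0 : ℝ, 0 < e0 ∧ ∀ s : ℂ, 1 / 2 - e0 < s.re → s.re < 1 / 2 →
      (dc χ).Zs s ≠ 0) ∧
    ((∃ s : ℂ, Lam χ s = 0 ∧ s.re ≠ 1 / 2) → ∃ s : ℂ, 1 / 2 < s.re ∧ (dc χ).Zs s = 0) := by
  obtain ⟨b, c, h⟩ := raw_dc hχ
  exact G.rzero _ _ _ _ _ _ _ _ h par_get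

lemma Zs_dc {s : ℂ} (h0 : 0 < s.re) (h1 : N = 1 → s ≠ 1) :
    (dc χ).Zs s = (s - 1) ^ rr N * χ.LFunction s := by
  have hs0 : s ≠ 0 := by
    rintro rfl
    simp at h0
  have hN0 : (N : ℂ) ≠ 0 := by exact_mod_cast NeZero.ne N
  have hc : (N : ℂ) ^ (s / 2) ≠ 0 := by
    rw [Ne, Complex.cpow_eq_zero_iff]
    exact fun h => hN0 h.1
  have hg := gfac_ne (χ := χ) h0
  have e : (dc χ).Zs s = Lam χ s * (s ^ rr N)⁻¹ * ((((N : ℝ)) : ℂ) ^ (s / 2))⁻¹ *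
      ∏ j : Fin 1, (Gammaℝ (s + ([(parD χ : ℂ)] : List ℂ).get j))⁻¹ := rfl
  have e2 : ∏ j : Fin 1, (Gammaℝ (s + ([(parD χ : ℂ)] : List ℂ).get j))⁻¹ = (Gammaℝ (s + (parD χ : ℂ)))⁻¹ := by
    rw [Fin.prod_univ_one]
    rfl
  have e3 : (((N : ℝ)) : ℂ) = (N : ℂ) := by push_cast; rfl
  rw [e, e2, e3, Lam_eq h0 h1]
  unfold fac rr
  split_ifs with h
  · field_simp
  · field_simp

lemma L_dc {s : ℂ} (h0 : 0 < s.re) (h1 : s ≠ 1) : (dc χ).L s = χ.LFunction s := by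
  have h2 : (dc χ).L s = (dc χ).Zs s / (s - 1) ^ rr N := rfl
  have h3 : (s - 1) ^ rr N ≠ 0 := pow_ne_zero _ (sub_ne_zero.2 h1)
  rw [h2, Zs_dc h0 fun _ => h1]
  field_simp

end

end Pool.Agent.N967.P
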