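import Mathlib
import Pool.Agent.N967.P.One

set_option autoImplicit false

/-!
# Finite products of shifted L-functions, with poles
-/

namespace Pool.Agent.N967.P

open Complex MeasureTheory Filter Topology
open Pool.Agent.N967.D (Lam Lam_diff Lam_ne LamS LamS_diff LamS_ne LamS_zero unit_ne tw term_tw lser_tw' Lam_an
  order_unit)

section
variable {ι : Type} [Fintype ι] {q : ι → ℕ} [∀ i, NeZero (q i)] (χ : ∀ i, DirichletCharacter ℂ (q i)) (τ : ι → ℝ)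

/-- the data of the product of the functions `L(s + iτ_j, χ_j)` -/
noncomputable def DD : Dat where
  Zs s := ∏ i, (dc (χ i)).Zs (s + τ i * I)
  p := Fintype.card {i : ι // q i = 1}
  sh j := τ ((Fintype.equivFin {i : ι // q i = 1}).symm j).1

lemma DD_P (s : ℂ) : (DD χ τ).P s = ∏ i, (s + τ i * I - 1) ^ (dc (χ i)).p := by
  classical
  have h1 : (DD χ τ).P s = ∏ j : Fin (Fintype.card {i : ι // q i = 1}),
      (s + τ ((Fintype.equivFin {i : ι // q i = 1}).symm j).1 * I - 1) := rfl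
  rw [h1, Equiv.prod_comp (Fintype.equivFin {i : ι // q i = 1}).symm
    (fun i : {i : ι // q i = 1} => (s + τ i.1 * I - 1)),
    ← Finset.prod_subtype (Finset.univ.filter fun i : ι => q i = 1) (fun x => by simp)
      (fun i : ι => (s + τ i * I - 1)), Finset.prod_filter]
  refine Finset.prod_congr rfl fun i _ => ?_
  show _ = (s + τ i * I - 1) ^ rr (q i)
  unfold rr
  split_ifs <;> simp

lemma DD_L (s : ℂ) : (DD χ τ).L s = ∏ i, (dc (χ i)).L (s + τ i * I) := by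
  unfold Dat.L G.Dat.L
  rw [Finset.prod_div_distrib, DD_P]
  rfl

lemma DD_fz (s : ℂ) : (DD χ τ).fz s = ∏ i, (dc (χ i)).fz (s + τ i * I) := by
  unfold Dat.fz G.Dat.fz
  rw [Finset.prod_div_distrib, DD_P]
  rfl

lemma re_sh (s : ℂ) (t : ℝ) : (s + t * I).re = s.re := by simp

lemma norm_sh (s : ℂ) (t : ℝ) : 1 + ‖s + t * I‖ ≤ (1 + |t|) * (1 + ‖s‖) := by
  have h4 : ‖s + t * I‖ ≤ ‖s‖ + |t| := by
    refine (norm_add_le _ _).trans ?_
    rw [norm_mul, Complex.norm_I, mul_one, Complex.norm_real, Real.norm_eq_abs]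
  have := norm_nonneg s
  have := abs_nonneg t
  nlinarith

lemma base_DD (hχ : ∀ i, (χ i).IsPrimitive) : Base (DD χ τ) := by
  refine ⟨fun s hs => ?_, fun j => ?_, ?_⟩
  · refine DifferentiableAt.fun_finsetProd fun i _ => ?_
    have h1 : DifferentiableAt ℂ (dc (χ i)).Zs (s + τ i * I) := (base_dc (hχ i)).diff _ (by rwa [re_sh])
    exact h1.comp s (differentiableAt_id.add_const _)
  · refine Finset.prod_ne_zero_iff.2 fun i _ h0 => ?_
    have hre : ((1 : ℂ) - ((DD χ τ).sh j : ℂ) * I + τ i * I).re = 1 := by simp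
    have h1 := (((zero_dc (hχ i)).1 _ (by rw [hre]; norm_num)).1).1 h0
    exact Lam_ne (hχ i) (by rw [hre]) h1
  · have h1 : ∀ i, ∃ (C : ℝ) (k : ℕ), 0 < C ∧ ∀ s : ℂ, 1 / 4 ≤ s.re → ‖(dc (χ i)).Zs s‖ ≤ C * (1 + ‖s‖) ^ k :=
      fun i => (base_dc (hχ i)).growth
    choose C k hC hb using h1
    refine ⟨∏ i, (C i * (1 + |τ i|) ^ k i), ∑ i, k i, Finset.prod_pos fun i _ => ?_, fun s hs => ?_⟩
    · have := hC i
      positivity
    · have e : (DD χ τ).Zs s = ∏ i, (dc (χ i)).Zs (s + τ i * I) := rfl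
      rw [e, norm_prod]
      calc ∏ i, ‖(dc (χ i)).Zs (s + τ i * I)‖ ≤ ∏ i, ((C i * (1 + |τ i|) ^ k i) * (1 + ‖s‖) ^ k i) := by
            refine Finset.prod_le_prod (fun _ _ => norm_nonneg _) fun i _ => ?_
            have h2 := hb i (s + τ i * I) (by rwa [re_sh])
            have h3 := pow_le_pow_left₀ (by positivity) (norm_sh s (τ i)) (k i)
            rw [mul_pow] at h3
            have h4 := hC i
            calc ‖(dc (χ i)).Zs (s + τ i * I)‖ ≤ C i * (1 + ‖s + τ i * I‖) ^ k i := h2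
              _ ≤ C i * ((1 + |τ i|) ^ k i * (1 + ‖s‖) ^ k i) := mul_le_mul_of_nonneg_left h3 h4.le
              _ = _ := by ring
        _ = _ := by
            rw [Finset.prod_mul_distrib, Finset.prod_pow_eq_pow_sum]

lemma ser_step (b : ℕ → ℂ) (t : ℝ) {s : ℂ} (h : LSeriesSummable b (s + t * I)) :
    LSeriesSummable (fun n => b n * tw t n) s := by
  unfold LSeriesSummable at h ⊢
  refine h.congr fun n => ?_
  rw [term_tw]

lemma ser_DD (hχ : ∀ i, (χ i).IsPrimitive) : ∃ (b : ℕ → ℂ) (σ1 : ℝ), 1 ≤ σ1 ∧ ∀ s : ℂ, σ1 < s.re →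
    LSeriesSummable b s ∧ (DD χ τ).fz s = LSeries b s := by
  classical
  have h1 : ∀ i, ∃ (b' : ℕ → ℂ) (σ1 : ℝ), 1 ≤ σ1 ∧ ∀ s : ℂ, σ1 < s.re →
      LSeriesSummable b' s ∧ (dc (χ i)).fz s = LSeries b' s := fun i => (ser_dc (hχ i)).1
  choose b σ hσ hb using h1
  have key : ∀ S : Finset ι, ∃ (g : ℕ → ℂ) (σ1 : ℝ), 1 ≤ σ1 ∧ ∀ s : ℂ, σ1 < s.re →
      LSeriesSummable g s ∧ ∏ i ∈ S, (dc (χ i)).fz (s + τ i * I) = LSeries g s := by
    intro S
    induction S using Finset.induction_on with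
    | empty =>
      refine ⟨LSeries.delta, 1, le_rfl, fun s hs => ⟨?_, ?_⟩⟩
      · unfold LSeriesSummable
        refine summable_of_ne_finset_zero (s := {1}) fun n hn => ?_
        rw [LSeries.term_delta, if_neg (by simpa using hn)]
      · rw [Finset.prod_empty, LSeries_delta]
        rfl
    | insert i S hi ih =>
      obtain ⟨g, σ1, hσ1, hg⟩ := ih
      refine ⟨LSeries.convolution (fun n => b i n * tw (τ i) n) g, max σ1 (σ i), le_max_of_le_left hσ1, fun s hs => ?_⟩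
      obtain ⟨h2, h3⟩ := hg s ((le_max_left _ _).trans_lt hs)
      obtain ⟨h4, h5⟩ := hb i (s + τ i * I) (by rw [re_sh]; exact (le_max_right _ _).trans_lt hs)
      have h6 := ser_step (b i) (τ i) h4
      refine ⟨h6.convolution h2, ?_⟩
      rw [Finset.prod_insert hi, h5, h3, LSeries_convolution' h6 h2, lser_tw']
  obtain ⟨g, σ1, hσ1, hg⟩ := key Finset.univ
  refine ⟨g, σ1, hσ1, fun s hs => ⟨(hg s hs).1, ?_⟩⟩
  rw [DD_fz]
  exact (hg s hs).2

lemma bd_DD (hχ : ∀ i, (χ i).IsPrimitive) : ∃ C : ℝ, 0 < C ∧ ∀ s : ℂ, 5 / 2 ≤ s.re →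
    ‖(DD χ τ).L s‖ ≤ C ∧ ‖(DD χ τ).fz s‖ ≤ C := by
  have h1 : ∀ i, ∃ C : ℝ, 0 < C ∧ ∀ s : ℂ, 5 / 2 ≤ s.re → ‖(dc (χ i)).L s‖ ≤ C ∧ ‖(dc (χ i)).fz s‖ ≤ C :=
    fun i => (ser_dc (hχ i)).2
  choose C hC hb using h1
  refine ⟨∏ i, C i, Finset.prod_pos fun i _ => hC i, fun s hs => ⟨?_, ?_⟩⟩
  · rw [DD_L, norm_prod]
    exact Finset.prod_le_prod (fun _ _ => norm_nonneg _) fun i _ => (hb i _ (by rwa [re_sh])).1
  · rw [DD_fz, norm_prod]
    exact Finset.prod_le_prod (fun _ _ => norm_nonneg _) fun i _ => (hb i _ (by rwa [re_sh])).2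

/-- the completed function of the family -/
noncomputable def LamP (s : ℂ) : ℂ := ∏ i, LamS (χ i) (τ i) s

lemma LamP_zero (s : ℂ) : LamP χ τ s = 0 ↔ ∃ i, Lam (χ i) (s + τ i * I) = 0 := by
  unfold LamP
  rw [Finset.prod_eq_zero_iff]
  constructor
  · rintro ⟨i, -, hi⟩
    exact ⟨i, (LamS_zero _).1 hi⟩
  · rintro ⟨i, hi⟩
    exact ⟨i, Finset.mem_univ _, (LamS_zero _).2 hi⟩

lemma online_i (h : ∀ s : ℂ, LamP χ τ s = 0 → s.re = 1 / 2) (i : ι) (s : ℂ) (hs : Lam (χ i) s = 0) : s.re = 1 / 2 := by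
  have h1 := h (s - τ i * I) ((LamP_zero χ τ _).2 ⟨i, by rwa [sub_add_cancel]⟩)
  simpa using h1

lemma ax_DD [Nonempty ι] (hχ : ∀ i, (χ i).IsPrimitive) (h : ∀ s : ℂ, LamP χ τ s = 0 → s.re = 1 / 2) :
    Ax (DD χ τ) := by
  refine ⟨base_DD χ τ hχ, fun s hs h0 => ?_, ?_, ser_DD χ τ hχ, bd_DD χ τ hχ⟩
  · obtain ⟨i, -, hi⟩ := Finset.prod_eq_zero_iff.1 h0
    have h1 := (((zero_dc (hχ i)).1 (s + τ i * I) (by rw [re_sh]; exact hs.le)).1).1 hi
    have h2 := online_i χ τ h i _ h1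
    rw [re_sh] at h2
    linarith
  · have h1 : ∀ i, ∃ e0 : ℝ, 0 < e0 ∧ ∀ s : ℂ, 1 / 2 - e0 < s.re → s.re < 1 / 2 → (dc (χ i)).Zs s ≠ 0 :=
      fun i => (zero_dc (hχ i)).2.1 (online_i χ τ h i)
    choose e he hz using h1
    obtain ⟨i0, hi0⟩ := Finite.exists_min e
    refine ⟨e i0, he i0, fun s hs1 hs2 => Finset.prod_ne_zero_iff.2 fun i _ => hz i _ ?_ ?_⟩
    · rw [re_sh]
      linarith [hi0 i]
    · rwa [re_sh]

lemma off_DD (hχ : ∀ i, (χ i).IsPrimitive) (h : ¬ ∀ s : ℂ, LamP χ τ s = 0 → s.re = 1 / 2) :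
    ∃ ρ : ℂ, 1 / 2 < ρ.re ∧ (DD χ τ).Zs ρ = 0 := by
  push Not at h
  obtain ⟨s, hs, hre⟩ := h
  obtain ⟨i, hi⟩ := (LamP_zero χ τ s).1 hs
  obtain ⟨z, hz1, hz2⟩ := (zero_dc (hχ i)).2.2 ⟨_, hi, by rwa [re_sh]⟩
  refine ⟨z - τ i * I, by simpa using hz1, Finset.prod_eq_zero (Finset.mem_univ i) ?_⟩
  rwa [sub_add_cancel]

lemma mu_DD (hχ : ∀ i, (χ i).IsPrimitive) (s : ℂ) (hs : 1 / 2 ≤ s.re) :
    ((DD χ τ).Zs s = 0 ↔ LamP χ τ s = 0) ∧ (DD χ τ).mu s = analyticOrderNatAt (LamP χ τ) s := by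
  -- the quotient of the two functions is analytic without zeros
  have hpos : 0 < s.re := by linarith
  set g : ι → ℂ → ℂ := fun i => G.Rzero.gg (rr (q i)) ((q i : ℕ) : ℝ)
    (fun j : Fin 1 => ([(Pool.Agent.W355.LJ.parD (χ i) : ℂ)] : List ℂ).get j) with hg
  have hN1 : ∀ i, (1 : ℝ) ≤ ((q i : ℕ) : ℝ) := fun i => by
    have := NeZero.ne (q i)
    exact_mod_cast Nat.one_le_iff_ne_zero.2 this
  have hgan : ∀ i, AnalyticAt ℂ (g i) (s + τ i * I) := fun i => G.Rzero.gg_an _ (hN1 i) _ (by rwa [re_sh])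
  have hgne : ∀ i, g i (s + τ i * I) ≠ 0 := fun i => G.Rzero.gg_ne _ (hN1 i) _ (by rwa [re_sh]) fun j => by
    rw [Complex.add_re, re_sh]
    have := par_get (χ := χ i) j
    linarith
  set E : ℂ → ℂ := fun z => ∏ i, (((((q i : ℕ) : ℝ)) : ℂ) ^ (-((τ i : ℂ) * I / 2)))⁻¹ * g i (z + τ i * I) with hE
  have hEan : AnalyticAt ℂ E s := by
    have e1 : E = fun z => ∏ i, (fun i z => (((((q i : ℕ) : ℝ)) : ℂ) ^ (-((τ i : ℂ) * I / 2)))⁻¹ *
        g i (z + τ i * I)) i z := rfl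
    rw [e1]
    refine Finset.analyticAt_fun_prod _ fun i _ => ?_
    refine analyticAt_const.mul ?_
    have h1 : AnalyticAt ℂ (fun z : ℂ => z + τ i * I) s := by fun_prop
    exact AnalyticAt.fun_comp (f := fun z : ℂ => z + τ i * I) (hgan i) h1
  have hEne : E s ≠ 0 := by
    refine Finset.prod_ne_zero_iff.2 fun i _ => mul_ne_zero (inv_ne_zero (unit_ne (τ i))) (hgne i)
  have hfac : ∀ z : ℂ, (DD χ τ).Zs z = E z * LamP χ τ z := by
    intro z
    have e1 : (DD χ τ).Zs z = ∏ i, (dc (χ i)).Zs (z + τ i * I) := rfl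
    rw [e1, hE]
    simp only
    unfold LamP
    rw [← Finset.prod_mul_distrib]
    refine Finset.prod_congr rfl fun i _ => ?_
    have e2 : (dc (χ i)).Zs = Lam (χ i) * g i := G.Rzero.Zs_eq _ _ _ _
    rw [e2, Pi.mul_apply]
    unfold LamS
    have hu := unit_ne (N := q i) (τ i)
    field_simp
  constructor
  · rw [hfac, mul_eq_zero, or_iff_right hEne]
  · unfold Dat.mu analyticOrderNatAt
    congr 1
    refine order_unit (E := E) hEan hEne ?_ (Filter.Eventually.of_forall fun z => hfac z)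
    have : Differentiable ℂ (LamP χ τ) := Differentiable.fun_finsetProd fun i _ => LamS_diff (hχ i) (τ i)
    exact this.analyticAt s

end

end Pool.Agent.N967.P
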