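import Mathlib
import Pool.Agent.N967.P.Fam

set_option autoImplicit false

/-!
# Slow growth and functional equation of the completed function of a family
-/

namespace Pool.Agent.N967.P

open Complex MeasureTheory Filter Topology
open Pool.Agent.W169.HF (Slow Fe)
open Pool.Agent.N967.D (Lam Lam_diff Lam_ne LamS LamS_diff LamS_ne LamS_zero unit_ne)
open scoped ComplexConjugate

lemma slow_const_mul {f : ℂ → ℂ} (c : ℂ) (hf : Slow f) : Slow fun s => c * f s := by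
  refine ⟨hf.1.const_mul c, fun δ hδ => ?_⟩
  obtain ⟨K, hK, hb⟩ := hf.2 δ hδ
  refine ⟨(‖c‖ + 1) * K, by positivity, fun z => ?_⟩
  rw [norm_mul, mul_assoc]
  have := norm_nonneg c
  exact mul_le_mul (by linarith) (hb z) (norm_nonneg _) (by linarith)

lemma slow_shift {f : ℂ → ℂ} (t : ℝ) (hf : Slow f) : Slow fun s => f (s + t * I) := by
  refine ⟨hf.1.comp (differentiable_id.add_const _), fun δ hδ => ?_⟩
  obtain ⟨K, hK, hb⟩ := hf.2 (δ / 2) (by positivity)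
  refine ⟨K * Real.exp (δ * t ^ 2), by positivity, fun z => (hb _).trans ?_⟩
  rw [mul_assoc, ← Real.exp_add]
  refine mul_le_mul_of_nonneg_left (Real.exp_le_exp.2 ?_) hK.le
  have h1 : ‖z + t * I‖ ≤ ‖z‖ + |t| := by
    refine (norm_add_le _ _).trans ?_
    rw [norm_mul, Complex.norm_I, mul_one, Complex.norm_real, Real.norm_eq_abs]
  have h2 : ‖z + t * I‖ ^ 2 ≤ 2 * ‖z‖ ^ 2 + 2 * t ^ 2 := by
    have h3 := pow_le_pow_left₀ (norm_nonneg _) h1 2
    have h4 : (‖z‖ + |t|) ^ 2 ≤ 2 * ‖z‖ ^ 2 + 2 * |t| ^ 2 := by nlinarith [sq_nonneg (‖z‖ - |t|)]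
    rw [sq_abs] at h4
    linarith
  nlinarith

lemma slow_mul {f g : ℂ → ℂ} (hf : Slow f) (hg : Slow g) : Slow fun s => f s * g s := by
  refine ⟨hf.1.mul hg.1, fun δ hδ => ?_⟩
  obtain ⟨K, hK, hb⟩ := hf.2 (δ / 2) (by positivity)
  obtain ⟨K', hK', hb'⟩ := hg.2 (δ / 2) (by positivity)
  refine ⟨K * K', by positivity, fun z => ?_⟩
  rw [norm_mul]
  refine (mul_le_mul (hb z) (hb' z) (norm_nonneg _) (by positivity)).trans (le_of_eq ?_)
  have : Real.exp (δ * ‖z‖ ^ 2) = Real.exp (δ / 2 * ‖z‖ ^ 2) * Real.exp (δ / 2 * ‖z‖ ^ 2) := by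
    rw [← Real.exp_add]
    ring_nf
  rw [this]
  ring

lemma slow_one : Slow fun _ => (1 : ℂ) := by
  refine ⟨differentiable_const _, fun δ hδ => ⟨1, one_pos, fun z => ?_⟩⟩
  rw [norm_one, one_mul]
  exact Real.one_le_exp (by positivity)

lemma fe_one : Fe fun _ => (1 : ℂ) := ⟨1, norm_one, fun _ => by simp⟩

lemma fe_mul {f g : ℂ → ℂ} (hf : Fe f) (hg : Fe g) : Fe fun s => f s * g s := by
  obtain ⟨e1, h1, h2⟩ := hf
  obtain ⟨e2, h3, h4⟩ := hg
  refine ⟨e1 * e2, by rw [norm_mul, h1, h3, one_mul], fun s => ?_⟩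
  show f s * g s = e1 * e2 * conj (f (1 - conj s) * g (1 - conj s))
  rw [h2 s, h4 s, map_mul]
  ring

lemma fe_shift {f : ℂ → ℂ} (t : ℝ) (hf : Fe f) : Fe fun s => f (s + t * I) := by
  obtain ⟨e, h1, h2⟩ := hf
  refine ⟨e, h1, fun s => ?_⟩
  have h3 : 1 - conj (s + t * I) = 1 - conj s + t * I := by
    rw [map_add, map_mul, Complex.conj_I, Complex.conj_ofReal]
    ring
  show f (s + t * I) = e * conj (f (1 - conj s + t * I))
  rw [h2 (s + t * I), h3]

lemma fe_unit {f : ℂ → ℂ} {u : ℂ} (hu : ‖u‖ = 1) (hf : Fe f) : Fe fun s => u * f s := by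
  obtain ⟨e, h1, h2⟩ := hf
  have hu0 : u ≠ 0 := by
    rw [← norm_pos_iff, hu]
    norm_num
  have hcu : conj u ≠ 0 := by simpa using hu0
  refine ⟨e * u / conj u, ?_, fun s => ?_⟩
  · rw [norm_div, norm_mul, h1, hu, RCLike.norm_conj, hu]
    norm_num
  · show u * f s = _
    rw [h2 s, map_mul]
    field_simp

section
variable {ι : Type} [Fintype ι] {q : ι → ℕ} [∀ i, NeZero (q i)] (χ : ∀ i, DirichletCharacter ℂ (q i)) (τ : ι → ℝ)

lemma unit_norm (N : ℕ) [NeZero N] (t : ℝ) : ‖(((N : ℝ)) : ℂ) ^ (-((t : ℂ) * I / 2))‖ = 1 := by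
  have hN0 : (0 : ℝ) < N := by exact_mod_cast Nat.pos_of_ne_zero (NeZero.ne N)
  rw [Complex.norm_cpow_eq_rpow_re_of_pos hN0]
  simp

lemma slow_fe (hχ : ∀ i, (χ i).IsPrimitive) : Slow (LamP χ τ) ∧ Fe (LamP χ τ) := by
  classical
  have key : ∀ S : Finset ι, Slow (fun s => ∏ i ∈ S, LamS (χ i) (τ i) s) ∧ Fe (fun s => ∏ i ∈ S, LamS (χ i) (τ i) s) := by
    intro S
    induction S using Finset.induction_on with
    | empty =>
      simp only [Finset.prod_empty]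
      exact ⟨slow_one, fe_one⟩
    | insert i S hi ih =>
      have e : (fun s => ∏ i ∈ insert i S, LamS (χ i) (τ i) s) =
          fun s => LamS (χ i) (τ i) s * ∏ i ∈ S, LamS (χ i) (τ i) s := by
        funext s
        rw [Finset.prod_insert hi]
      rw [e]
      have e2 : LamS (χ i) (τ i) = fun s => (((q i : ℝ)) : ℂ) ^ (-((τ i : ℂ) * I / 2)) * Lam (χ i) (s + τ i * I) := rfl
      have h1 : Slow (LamS (χ i) (τ i)) := by
        rw [e2]
        exact slow_const_mul _ (slow_shift (τ i) (slow_dc (hχ i)))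
      have h2 : Fe (LamS (χ i) (τ i)) := by
        rw [e2]
        exact fe_unit (unit_norm _ _) (fe_shift (τ i) (fe_dc (hχ i)))
      exact ⟨slow_mul h1 ih.1, fe_mul h2 ih.2⟩
  exact key Finset.univ

lemma LamP_diff (hχ : ∀ i, (χ i).IsPrimitive) : Differentiable ℂ (LamP χ τ) :=
  Differentiable.fun_finsetProd fun i _ => LamS_diff (hχ i) (τ i)

lemma LamP_one (hχ : ∀ i, (χ i).IsPrimitive) : LamP χ τ 1 ≠ 0 :=
  Finset.prod_ne_zero_iff.2 fun i _ => LamS_ne (hχ i) (τ i) (by simp)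

end

end Pool.Agent.N967.P
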