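import Mathlib
import Pool.Agent.N967.P.SF
import Pool.Agent.N967.P.Fin
import Pool.Agent.N967.P.All
import Pool.Agent.N967.G.Fin2
import Pool.Agent.N967.G.Lam
import Pool.Agent.N967.D.FinS

set_option autoImplicit false

/-!
# Baez-Duarte's distance for finite products of arbitrarily shifted Dirichlet L-functions
-/

namespace Pool.Agent.N967.P

open Complex MeasureTheory Filter Topology
open Pool.Agent.N967.G (BaezDuarte dist2 integrand OnLine Zero norm2 half_cast norm2_half)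
open Pool.Agent.N967.D (Lam LamS LamF Zeros GRH Lf sc Ct Asy zero_iff mult_eq ct_eq online_iff ez prim od od_pos od_zero
  sum_sq_le sum_sq_lt sum_sq_eq sch sta single_zeros single_mult single_tsum NoCommon)

section
variable {ι : Type} [Fintype ι] [Nonempty ι] {q : ι → ℕ} [∀ i, NeZero (q i)] (χ : ∀ i, DirichletCharacter ℂ (q i))
  (τ : ι → ℝ)

/-- the theorem for a family of primitive characters -/
theorem famP (hχ : ∀ i, (χ i).IsPrimitive) :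
    BaezDuarte (LamP χ τ) (fun s => ∏ i, (χ i).LFunction (s + τ i * I)) (1 / 2) := by
  have hd : Dich (DD χ τ) (∀ s : ℂ, LamP χ τ s = 0 → s.re = 1 / 2) :=
    dich_of (fun hRH => rp_asym (rp_all (ax_DD χ τ hχ hRH))) (off (base_DD χ τ hχ) shift) (off_DD χ τ hχ)
  have hne : ∃ z, LamP χ τ z ≠ 0 := ⟨1, LamP_one χ τ hχ⟩
  obtain ⟨hs, hf⟩ := slow_fe χ τ hχ
  have h1 : BaezDuarte (LamP χ τ) (DD χ τ).L (1 / 2) :=
    bd_of hd (mu_DD χ τ hχ) (fun s h => Pool.Agent.N967.G.ord_pos (LamP_diff χ τ hχ) hne h)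
      (fun hRH => Pool.Agent.N967.G.lamS _ hs hf hne hRH)
  have h2 := h1.shift (κ := 1) (δ := 0) (Λ := LamP χ τ) (L' := fun s => ∏ i, (χ i).LFunction (s + τ i * I))
    one_ne_zero (fun s => by simp) (LamP_diff χ τ hχ) (fun t => ?_)
  · simpa using h2
  · rw [DD_L]
    refine Finset.prod_congr rfl fun i _ => ?_
    have e : (((1 / 2 + 0 : ℝ)) : ℂ) + t * I = 1 / 2 + t * I := by
      push_cast
      ring
    rw [e, L_dc]
    · simp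
    · intro h
      have := congrArg Complex.re h
      norm_num at this

theorem asyP : Asy χ τ := by
  have hbd : BaezDuarte (LamF χ τ) (Lf χ τ) (1 / 2) :=
    famP (fun i => (χ i).primitiveCharacter) τ (prim χ)
  have hon := online_iff χ τ
  have hct := ct_eq χ τ
  have hm : ∀ ρ : Zero (LamF χ τ), Pool.Agent.N967.G.mult (LamF χ τ) ρ =
      Pool.Agent.N967.D.mult χ τ ((ez χ τ ρ : Zeros χ τ) : ℂ) := by
    intro ρ
    have h1 := (zero_iff χ τ _).1 ρ.2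
    exact mult_eq χ τ h1.1.1 h1.1.2
  have hn : ∀ ρ : Zero (LamF χ τ), norm2 (LamF χ τ) (1 / 2) ρ = ‖((ez χ τ ρ : Zeros χ τ) : ℂ)‖ ^ 2 := by
    intro ρ
    rw [norm2_half]
    rfl
  have e2 : (fun ρ : Zero (LamF χ τ) => (Pool.Agent.N967.G.mult (LamF χ τ) ρ : ℝ) ^ 2 / norm2 (LamF χ τ) (1 / 2) ρ) =
      (fun ρ : Zeros χ τ => (Pool.Agent.N967.D.mult χ τ (ρ : ℂ) : ℝ) ^ 2 / ‖(ρ : ℂ)‖ ^ 2) ∘ ez χ τ := by
    funext ρ
    rw [Function.comp_apply, hm, hn]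
  have e1 : (fun ρ : Zero (LamF χ τ) => (Pool.Agent.N967.G.mult (LamF χ τ) ρ : ℝ) / norm2 (LamF χ τ) (1 / 2) ρ) =
      (fun ρ : Zeros χ τ => (Pool.Agent.N967.D.mult χ τ (ρ : ℂ) : ℝ) / ‖(ρ : ℂ)‖ ^ 2) ∘ ez χ τ := by
    funext ρ
    rw [Function.comp_apply, hm, hn]
  obtain ⟨b1, b2, b3, b4, b5, b6, b7⟩ := hbd
  rw [e2] at b2 b3
  rw [e1, hct] at b6
  rw [hct] at b7
  rw [(ez χ τ).summable_iff] at b2
  have e3 : tsum ((fun ρ : Zeros χ τ => (Pool.Agent.N967.D.mult χ τ (ρ : ℂ) : ℝ) ^ 2 / ‖(ρ : ℂ)‖ ^ 2) ∘ ez χ τ) =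
      ∑' ρ : Zeros χ τ, (Pool.Agent.N967.D.mult χ τ (ρ : ℂ) : ℝ) ^ 2 / ‖(ρ : ℂ)‖ ^ 2 :=
    (ez χ τ).tsum_eq (fun ρ : Zeros χ τ => (Pool.Agent.N967.D.mult χ τ (ρ : ℂ) : ℝ) ^ 2 / ‖(ρ : ℂ)‖ ^ 2)
  rw [e3] at b3
  rw [(ez χ τ).hasSum_iff] at b6
  refine ⟨fun h => b1 (hon.2 h), fun h => b2 (hon.2 h), fun h => b3 (hon.2 h), fun h => b4 fun h2 => h (hon.1 h2),
    hon.symm.trans b5, fun h => b6 (hon.2 h), Iff.trans ?_ b7⟩
  rw [hon]
  refine and_congr_right fun _ => ?_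
  constructor
  · intro h ρ
    rw [hm]
    exact h _ (ez χ τ ρ).2
  · intro h s hs
    have h1 := h ((ez χ τ).symm ⟨s, hs⟩)
    rw [hm, Equiv.apply_symm_apply] at h1
    exact h1

theorem addP (hG : GRH χ τ) : ∃ (v : ℝ) (w : ι → ℝ),
    Tendsto (sc χ τ) atTop (𝓝 (ENNReal.ofReal v)) ∧
    (∀ i, 0 ≤ w i ∧ Tendsto (sc (sch χ i) (sta τ i)) atTop (𝓝 (ENNReal.ofReal (w i)))) ∧
    ∑ i, w i ≤ v ∧ (∑ i, w i = v ↔ NoCommon χ τ) := by
  have hA := asyP χ τ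
  have hGi : ∀ i, GRH (sch χ i) (sta τ i) := by
    intro i s hs
    have h1 := (single_zeros χ τ i s).1 hs
    exact hG s ⟨h1.1, i, h1.2⟩
  have hAi : ∀ i, Asy (sch χ i) (sta τ i) := fun i => asyP _ _
  have hmult : ∀ s : ℂ, (Pool.Agent.N967.D.mult χ τ s : ℝ) = ∑ i, (od χ τ i s : ℝ) := by
    intro s
    unfold Pool.Agent.N967.D.mult od
    push_cast
    rfl
  have hS := hA.summable hG
  have hSi : ∀ i, Summable fun ρ : Zeros χ τ => (od χ τ i (ρ : ℂ) : ℝ) ^ 2 / ‖(ρ : ℂ)‖ ^ 2 := by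
    intro i
    refine Summable.of_nonneg_of_le (fun ρ => by positivity) (fun ρ => ?_) hS
    rw [hmult]
    gcongr
    exact Finset.single_le_sum (f := fun i => (od χ τ i (ρ : ℂ) : ℝ)) (fun i _ => Nat.cast_nonneg _) (Finset.mem_univ i)
  have hsum : ∑ i, ∑' ρ : Zeros χ τ, (od χ τ i (ρ : ℂ) : ℝ) ^ 2 / ‖(ρ : ℂ)‖ ^ 2 =
      ∑' ρ : Zeros χ τ, (∑ i, (od χ τ i (ρ : ℂ) : ℝ) ^ 2) / ‖(ρ : ℂ)‖ ^ 2 := by
    rw [← Summable.tsum_finsetSum fun i _ => hSi i]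
    refine tsum_congr fun ρ => ?_
    rw [Finset.sum_div]
  have hSs : Summable fun ρ : Zeros χ τ => (∑ i, (od χ τ i (ρ : ℂ) : ℝ) ^ 2) / ‖(ρ : ℂ)‖ ^ 2 := by
    refine (summable_sum (s := Finset.univ) fun i _ => hSi i).congr fun ρ => ?_
    rw [Finset.sum_div]
  have hterm : ∀ ρ : Zeros χ τ, (∑ i, (od χ τ i (ρ : ℂ) : ℝ) ^ 2) / ‖(ρ : ℂ)‖ ^ 2 ≤
      (Pool.Agent.N967.D.mult χ τ (ρ : ℂ) : ℝ) ^ 2 / ‖(ρ : ℂ)‖ ^ 2 := by
    intro ρ
    rw [hmult]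
    gcongr
    exact sum_sq_le _
  refine ⟨_, fun i => ∑' ρ : Zeros χ τ, (od χ τ i (ρ : ℂ) : ℝ) ^ 2 / ‖(ρ : ℂ)‖ ^ 2, hA.asymptotic hG, fun i => ⟨?_, ?_⟩,
    ?_, ?_⟩
  · exact tsum_nonneg fun ρ => by positivity
  · show Tendsto (sc (sch χ i) (sta τ i)) atTop
      (𝓝 (ENNReal.ofReal (∑' ρ : Zeros χ τ, (od χ τ i (ρ : ℂ) : ℝ) ^ 2 / ‖(ρ : ℂ)‖ ^ 2)))
    rw [← single_tsum]
    exact (hAi i).asymptotic (hGi i)
  · rw [hsum]
    exact hSs.tsum_le_tsum hterm hS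
  · rw [hsum]
    constructor
    · intro h i j hij s h0 h1 hi hj
      have hs : s ∈ Zeros χ τ := ⟨⟨h0, h1⟩, i, hi⟩
      have hlt : (∑ i, (od χ τ i s : ℝ) ^ 2) / ‖s‖ ^ 2 < (Pool.Agent.N967.D.mult χ τ s : ℝ) ^ 2 / ‖s‖ ^ 2 := by
        rw [hmult]
        have hs0 : s ≠ 0 := by
          rintro rfl
          simp at h0
        have h2 : 0 < ‖s‖ ^ 2 := by positivity
        refine div_lt_div_of_pos_right ?_ h2
        exact sum_sq_lt _ hij (od_pos χ τ ⟨⟨h0, h1⟩, hi⟩) (od_pos χ τ ⟨⟨h0, h1⟩, hj⟩)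
      have h3 := Summable.tsum_lt_tsum (i := (⟨s, hs⟩ : Zeros χ τ)) hterm hlt hSs hS
      exact h3.ne h
    · intro h
      refine tsum_congr fun ρ => ?_
      rw [hmult]
      congr 1
      refine sum_sq_eq _ fun i j hij hi => ?_
      have h1 : (χ i).LFunction ((ρ : ℂ) + τ i * I) = 0 := by
        by_contra hcon
        exact hi (od_zero χ τ hcon)
      exact od_zero χ τ (h i j hij _ ρ.2.1.1 ρ.2.1.2 h1)

end

end Pool.Agent.N967.P
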