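import Mathlib
import Pool.Agent.N967.P.FinP
import Pool.Agent.N967.P.Comb

set_option autoImplicit false

/-!
# Products of shifted zeta functions
-/

namespace Pool.Agent.N967.P.Z

open Complex MeasureTheory Filter Topology
open Pool.Agent.N967.D (Lam LamS LamF Zeros GRH Lf sc Ct Asy NoCommon sch sta cS L_an ord_ne ordN_pos ordN_zero)
open Pool.Agent.N967.G (dist2 integrand half_cast)

/-- the trivial character modulo one -/
noncomputable abbrev χ1 (ι : Type) : ∀ _ : ι, DirichletCharacter ℂ 1 := fun _ => 1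

section
variable {ι : Type} [Fintype ι] (τ : ι → ℝ)

lemma prim_zeta {c : ℕ} [NeZero c] (hc : c = 1) (ψ : DirichletCharacter ℂ c) : ψ.LFunction = riemannZeta := by
  subst hc
  exact DirichletCharacter.LFunction_modOne_eq

lemma prim1 : (1 : DirichletCharacter ℂ 1).primitiveCharacter.LFunction = riemannZeta :=
  prim_zeta (DirichletCharacter.conductor_one) _

lemma Lf_eq (s : ℂ) : Lf (χ1 ι) τ s = ∏ i, riemannZeta (s + τ i * I) := by
  unfold Lf
  refine Finset.prod_congr rfl fun i _ => ?_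
  rw [show ((χ1 ι) i).primitiveCharacter.LFunction = riemannZeta from prim1]

/-- the zeros of the product -/
def zs : Set ℂ := {s : ℂ | (0 < s.re ∧ s.re < 1) ∧ ∃ i, riemannZeta (s + τ i * I) = 0}

/-- the total multiplicity -/
noncomputable def ms (s : ℂ) : ℕ := ∑ i, analyticOrderNatAt riemannZeta (s + τ i * I)

omit [Fintype ι] in
lemma zeros_eq : Zeros (χ1 ι) τ = zs τ := by
  unfold Zeros zs
  simp only [χ1, zeta_eq]

lemma mult_eq1 (s : ℂ) : D.mult (χ1 ι) τ s = ms τ s := by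
  unfold D.mult ms
  simp only [χ1, zeta_eq]

/-- the completed zeta function -/
noncomputable def cz (s : ℂ) : ℂ := s * (s - 1) * completedRiemannZeta₀ s + 1

/-- `2 Re (Λ'/Λ)(1 + iτ)` -/
noncomputable def cc (t : ℝ) : ℝ := 2 * (logDeriv cz (1 + t * I)).re

lemma Lam_one' {c : ℕ} [NeZero c] (hc : c = 1) (ψ : DirichletCharacter ℂ c) : Lam ψ = cz := by
  funext s
  rw [Lam, if_pos hc]
  rfl

lemma Ct_eq : Ct (χ1 ι) τ = ∑ i, cc (τ i) := by
  unfold Ct
  refine Finset.sum_congr rfl fun i _ => ?_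
  unfold cS cc
  rw [Lam_one' (DirichletCharacter.conductor_one)]

omit [Fintype ι] in
lemma grh_eq [Nonempty ι] : GRH (χ1 ι) τ ↔ RiemannHypothesis := by
  rw [rhs_iff]
  unfold GRH
  rw [zeros_eq]
  constructor
  · intro h s h0 h1 hs
    obtain ⟨i⟩ := ‹Nonempty ι›
    have h2 := h (s - τ i * I) ⟨⟨by simpa using h0, by simpa using h1⟩, i, by rwa [sub_add_cancel]⟩
    simpa using h2
  · rintro h s ⟨⟨h0, h1⟩, i, hi⟩
    have h2 := h _ (by simpa using h0) (by simpa using h1) hi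
    simpa using h2

end

/-- `d_M²(L) log M → v` -/
def HL (L : ℂ → ℂ) (v : ℝ) : Prop :=
  Tendsto (fun M : ℕ => dist2 L (1 / 2) M * ENNReal.ofReal (Real.log M)) atTop (𝓝 (ENNReal.ofReal v))

lemma sc_iff {ι : Type} [Fintype ι] (τ : ι → ℝ) (v : ℝ) :
    Tendsto (sc (χ1 ι) τ) atTop (𝓝 (ENNReal.ofReal v)) ↔ HL (fun s => ∏ i, riemannZeta (s + τ i * I)) v := by
  unfold HL
  have h1 : Lf (χ1 ι) τ = fun s => ∏ i, riemannZeta (s + τ i * I) := funext (Lf_eq τ)
  have h2 : sc (χ1 ι) τ = fun M : ℕ => dist2 (fun s => ∏ i, riemannZeta (s + τ i * I)) (1 / 2) M *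
      ENNReal.ofReal (Real.log M) := by
    funext M
    unfold sc
    rw [h1]
  rw [h2]

lemma HL_unique {L : ℂ → ℂ} {u v : ℝ} (hu : 0 ≤ u) (hv : 0 ≤ v) (h1 : HL L u) (h2 : HL L v) : u = v :=
  (ENNReal.ofReal_eq_ofReal_iff hu hv).1 (tendsto_nhds_unique h1 h2)

lemma rh_of_limit {v : ℝ} (h : HL riemannZeta v) : RiemannHypothesis := by
  refine (grh_eq (ι := Unit) fun _ => 0).1 ((asyP (χ1 Unit) fun _ => 0).iff_limit.2 ⟨_, ENNReal.ofReal_ne_top,
    (sc_iff _ v).2 ?_⟩)
  have : (fun s : ℂ => ∏ i : Unit, riemannZeta (s + (((fun _ => 0 : Unit → ℝ) i : ℝ) : ℂ) * I)) = riemannZeta := by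
    funext s
    simp
  rw [this]
  exact h

/-- the family with the shifts `0` and `τ` -/
noncomputable def two (τ : ℝ) : Fin 2 → ℝ := ![0, τ]

lemma prod_two (τ : ℝ) : (fun s : ℂ => ∏ i, riemannZeta (s + two τ i * I)) =
    fun s => riemannZeta s * riemannZeta (s + τ * I) := by
  funext s
  rw [Fin.prod_univ_two]
  simp [two]

lemma rh_of_limit2 {τ v : ℝ} (h : HL (fun s => riemannZeta s * riemannZeta (s + τ * I)) v) : RiemannHypothesis := by
  refine (grh_eq (two τ)).1 ((asyP (χ1 (Fin 2)) (two τ)).iff_limit.2 ⟨_, ENNReal.ofReal_ne_top,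
    (sc_iff _ v).2 ?_⟩)
  rw [prod_two]
  exact h

lemma nocommon_iff (τ : ℝ) : NoCommon (χ1 (Fin 2)) (two τ) ↔ NC τ := by
  unfold NoCommon NC
  simp only [χ1, zeta_eq]
  constructor
  · intro h s h0 h1 hs
    have := h 0 1 (by decide) s h0 h1 (by simpa [two] using hs)
    simpa [two] using this
  · intro h i j hij s h0 h1
    have e0 : s + ((two τ 0 : ℝ) : ℂ) * I = s := by simp [two]
    have e1 : s + ((two τ 1 : ℝ) : ℂ) * I = s + τ * I := by simp [two]
    fin_cases i <;> fin_cases j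
    · exact absurd rfl hij
    · intro hs
      change riemannZeta (s + ((two τ 1 : ℝ) : ℂ) * I) ≠ 0
      change riemannZeta (s + ((two τ 0 : ℝ) : ℂ) * I) = 0 at hs
      rw [e0] at hs
      rw [e1]
      exact h s h0 h1 hs
    · intro hs
      change riemannZeta (s + ((two τ 0 : ℝ) : ℂ) * I) ≠ 0
      change riemannZeta (s + ((two τ 1 : ℝ) : ℂ) * I) = 0 at hs
      rw [e1] at hs
      rw [e0]
      intro h2
      exact h s h0 h1 h2 hs
    · exact absurd rfl hij

/-- the limits add up -/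
def Add (τ : ℝ) : Prop := ∃ u v : ℝ, 0 ≤ u ∧ 0 ≤ v ∧ HL riemannZeta u ∧ HL (fun s => riemannZeta (s + τ * I)) v ∧
  HL (fun s => riemannZeta s * riemannZeta (s + τ * I)) (u + v)

lemma add_iff (hRH : RiemannHypothesis) (τ : ℝ) : Add τ ↔ NC τ := by
  have hG := (grh_eq (two τ)).2 hRH
  obtain ⟨v, w, h1, h2, h3, h4⟩ := addP (χ1 (Fin 2)) (two τ) hG
  rw [nocommon_iff, Fin.sum_univ_two] at h4
  rw [Fin.sum_univ_two] at h3
  have hv : HL (fun s => riemannZeta s * riemannZeta (s + τ * I)) v := by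
    have := (sc_iff _ v).1 h1
    rwa [prod_two] at this
  have hw0 : HL riemannZeta (w 0) := by
    have h5 := (h2 0).2
    have h6 := (sc_iff (ι := Unit) (fun _ => two τ 0) (w 0)).1 h5
    have h7 : (fun s : ℂ => ∏ i : Unit, riemannZeta (s + (((fun _ => two τ 0 : Unit → ℝ) i : ℝ) : ℂ) * I)) =
        riemannZeta := by
      funext s
      simp [two]
    rwa [h7] at h6
  have hw1 : HL (fun s => riemannZeta (s + τ * I)) (w 1) := by
    have h5 := (h2 1).2
    have h6 := (sc_iff (ι := Unit) (fun _ => two τ 1) (w 1)).1 h5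
    have h7 : (fun s : ℂ => ∏ i : Unit, riemannZeta (s + (((fun _ => two τ 1 : Unit → ℝ) i : ℝ) : ℂ) * I)) =
        fun s => riemannZeta (s + τ * I) := by
      funext s
      simp [two]
    rwa [h7] at h6
  have p0 := (h2 0).1
  have p1 := (h2 1).1
  rw [← h4]
  constructor
  · rintro ⟨u', v', a1, a2, a3, a4, a5⟩
    rw [HL_unique p0 a1 hw0 a3, HL_unique p1 a2 hw1 a4]
    exact HL_unique (add_nonneg a1 a2) (by linarith) a5 hv
  · intro h
    refine ⟨w 0, w 1, p0, p1, hw0, hw1, ?_⟩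
    rw [h]
    exact hv

/-- **the criterion for RH and linear independence** -/
theorem main1 : (RiemannHypothesis ∧ LIs Gam) ↔ ∀ τ ∈ Tau, Add τ := by
  constructor
  · rintro ⟨hRH, hLI⟩ τ hτ
    exact (add_iff hRH τ).2 ((li_iff_nc (rhs_iff.1 hRH)).1 hLI τ hτ)
  · intro h
    obtain ⟨τ, hτ⟩ := tau_nonempty
    obtain ⟨u, v, -, -, h1, -⟩ := h τ hτ
    have hRH := rh_of_limit h1
    exact ⟨hRH, (li_iff_nc (rhs_iff.1 hRH)).2 fun t ht => (add_iff hRH t).1 (h t ht)⟩

/-- all nontrivial zeros are simple -/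
def Simple : Prop := ∀ s : ℂ, 0 < s.re → s.re < 1 → riemannZeta s = 0 → deriv riemannZeta s ≠ 0

lemma simple_iff {s : ℂ} (h0 : 0 < s.re) (h1 : s.re < 1) (h : riemannZeta s = 0) :
    deriv riemannZeta s ≠ 0 ↔ analyticOrderNatAt riemannZeta s = 1 := by
  have hs1 : s ≠ 1 := by
    rintro rfl
    simp at h1
  have han : AnalyticAt ℂ riemannZeta s := by
    have := L_an (χ := (1 : DirichletCharacter ℂ 1)) hs1
    rwa [zeta_eq] at this
  have hne : analyticOrderAt riemannZeta s ≠ ⊤ := by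
    have := ord_ne (1 : DirichletCharacter ℂ 1) h0 h1
    rwa [zeta_eq] at this
  constructor
  · intro hd
    unfold analyticOrderNatAt
    rw [han.analyticOrderAt_eq_one_of_zero_deriv_ne_zero h hd]
    rfl
  · intro ho h4
    have h11 := han.analyticOrderAt_deriv_add_one
    have h12 : analyticOrderAt riemannZeta s = 1 := by
      rw [← Nat.cast_analyticOrderNatAt hne, ho]
      rfl
    have h13 : (fun z => riemannZeta z - riemannZeta s) = riemannZeta := by
      funext z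
      rw [h, sub_zero]
    have h14 : analyticOrderAt (deriv riemannZeta) s ≠ 0 := by
      rw [han.deriv.analyticOrderAt_ne_zero]
      exact h4
    have h15 : analyticOrderAt (deriv riemannZeta) s + 1 = 1 := by
      rw [h11]
      rw [show (riemannZeta · - riemannZeta s) = riemannZeta from h13]
      exact h12
    generalize analyticOrderAt (deriv riemannZeta) s = x at h14 h15
    induction x using ENat.recTopCoe with
    | top => simp at h15
    | coe n =>
      have h16 : n + 1 = 1 := by exact_mod_cast h15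
      have h17 : n = 0 := by omega
      exact h14 (by rw [h17]; rfl)

lemma ord0 {s : ℂ} (h : riemannZeta s ≠ 0) : analyticOrderNatAt riemannZeta s = 0 := by
  by_contra hcon
  exact h (apply_eq_zero_of_analyticOrderNatAt_ne_zero hcon)

lemma ord1 {s : ℂ} (h0 : 0 < s.re) (h1 : s.re < 1) (h : riemannZeta s = 0) : 1 ≤ analyticOrderNatAt riemannZeta s := by
  have := ordN_pos (χ := (1 : DirichletCharacter ℂ 1)) h0 h1 (by rwa [zeta_eq])
  rwa [zeta_eq] at this

lemma ms_two (τ : ℝ) (s : ℂ) : ms (two τ) s = analyticOrderNatAt riemannZeta s +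
    analyticOrderNatAt riemannZeta (s + τ * I) := by
  unfold ms
  rw [Fin.sum_univ_two]
  simp [two]

lemma zs_two (τ : ℝ) (s : ℂ) : s ∈ zs (two τ) ↔ (0 < s.re ∧ s.re < 1) ∧
    (riemannZeta s = 0 ∨ riemannZeta (s + τ * I) = 0) := by
  unfold zs
  constructor
  · rintro ⟨h, i, hi⟩
    refine ⟨h, ?_⟩
    fin_cases i
    · left
      simpa [two] using hi
    · right
      simpa [two] using hi
  · rintro ⟨h, h1 | h1⟩
    · exact ⟨h, 0, by simpa [two] using h1⟩
    · exact ⟨h, 1, by simpa [two] using h1⟩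

lemma simple_two (τ : ℝ) : (∀ s ∈ zs (two τ), ms (two τ) s = 1) ↔ Simple ∧ NC τ := by
  have hre : ∀ s : ℂ, (s + τ * I).re = s.re := fun s => by simp
  constructor
  · intro h
    have key : ∀ s : ℂ, 0 < s.re → s.re < 1 → riemannZeta s = 0 →
        analyticOrderNatAt riemannZeta s = 1 ∧ riemannZeta (s + τ * I) ≠ 0 := by
      intro s h0 h1 hs
      have h2 := h s ((zs_two τ s).2 ⟨⟨h0, h1⟩, Or.inl hs⟩)
      rw [ms_two] at h2
      have h3 := ord1 h0 h1 hs
      refine ⟨by omega, fun h4 => ?_⟩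
      have h5 := ord1 (s := s + τ * I) (by rwa [hre]) (by rwa [hre]) h4
      omega
    exact ⟨fun s h0 h1 hs => (simple_iff h0 h1 hs).2 (key s h0 h1 hs).1, fun s h0 h1 hs => (key s h0 h1 hs).2⟩
  · rintro ⟨h1, h2⟩ s hs
    obtain ⟨⟨h0, h0'⟩, h3⟩ := (zs_two τ s).1 hs
    rw [ms_two]
    by_cases h4 : riemannZeta s = 0
    · rw [(simple_iff h0 h0' h4).1 (h1 s h0 h0' h4), ord0 (h2 s h0 h0' h4)]
    · have h5 := h3.resolve_left h4
      rw [ord0 h4, (simple_iff (s := s + τ * I) (by rwa [hre]) (by rwa [hre]) h5).1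
        (h1 _ (by rwa [hre]) (by rwa [hre]) h5)]

/-- one shift -/
lemma iff_two (τ : ℝ) : (RiemannHypothesis ∧ Simple ∧ NC τ) ↔
    HL (fun s => riemannZeta s * riemannZeta (s + τ * I)) (cc 0 + cc τ) := by
  have h1 := (asyP (χ1 (Fin 2)) (two τ)).iff_simple
  rw [grh_eq, zeros_eq, Ct_eq, sc_iff, prod_two, Fin.sum_univ_two] at h1
  simp only [mult_eq1] at h1
  have e0 : two τ 0 = 0 := by simp [two]
  have e1 : two τ 1 = τ := by simp [two]
  rw [e0, e1] at h1
  rw [← h1]
  have h2 := simple_two τ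
  rw [← h2]

/-- **the criterion with simplicity** -/
theorem main2 : (RiemannHypothesis ∧ Simple ∧ LIs Gam) ↔ ∀ τ ∈ Tau,
    HL (fun s => riemannZeta s * riemannZeta (s + τ * I)) (cc 0 + cc τ) := by
  constructor
  · rintro ⟨hRH, hS, hLI⟩ τ hτ
    exact (iff_two τ).1 ⟨hRH, hS, (li_iff_nc (rhs_iff.1 hRH)).1 hLI τ hτ⟩
  · intro h
    obtain ⟨τ, hτ⟩ := tau_nonempty
    obtain ⟨hRH, hS, -⟩ := (iff_two τ).2 (h τ hτ)
    exact ⟨hRH, hS, (li_iff_nc (rhs_iff.1 hRH)).2 fun t ht => ((iff_two t).2 (h t ht)).2.2⟩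

end Pool.Agent.N967.P.Z
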