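import Mathlib
import Pool.Agent.N967.P.Zeta

set_option autoImplicit false

/-!
# Algebraic independence of the ordinates and common zeros of shifted zeta functions
-/

namespace Pool.Agent.N967.P.Z

open Complex MeasureTheory Filter Topology

/-- the values at different ordinates of the polynomials over `ℚ` in which at least three variables occur -/
def TauA : Set ℝ := {τ : ℝ | ∃ p : MvPolynomial Gam ℚ, 3 ≤ p.vars.card ∧
  τ = MvPolynomial.aeval (fun γ : Gam => (γ : ℝ)) p}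

lemma comb_alg (hA : AlgebraicIndependent ℚ (fun γ : Gam => (γ : ℝ))) {p : MvPolynomial Gam ℚ}
    (hp : 3 ≤ p.vars.card) (u v : Gam) (c d : ℤ) :
    MvPolynomial.aeval (fun γ : Gam => (γ : ℝ)) p ≠ c * (u : ℝ) + d * (v : ℝ) := by
  classical
  intro h
  have h1 : MvPolynomial.aeval (fun γ : Gam => (γ : ℝ)) p =
      MvPolynomial.aeval (fun γ : Gam => (γ : ℝ))
        (MvPolynomial.C (c : ℚ) * MvPolynomial.X u + MvPolynomial.C (d : ℚ) * MvPolynomial.X v) := by
    rw [h]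
    simp
  have h2 := hA h1
  have h3 : p.vars ⊆ {u, v} := by
    rw [h2]
    refine (MvPolynomial.vars_add_subset _ _).trans ?_
    refine Finset.union_subset ?_ ?_
    · refine (MvPolynomial.vars_mul _ _).trans ?_
      rw [MvPolynomial.vars_C, Finset.empty_union, MvPolynomial.vars_X]
      simp
    · refine (MvPolynomial.vars_mul _ _).trans ?_
      rw [MvPolynomial.vars_C, Finset.empty_union, MvPolynomial.vars_X]
      simp
  have h4 := Finset.card_le_card h3
  have h5 := Finset.card_le_two (a := u) (b := v)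
  omega

lemma tauA_nonempty : TauA.Nonempty := by
  classical
  obtain ⟨g1, hg1, -⟩ := inf_ord 0
  obtain ⟨g2, hg2, h12⟩ := inf_ord g1
  obtain ⟨g3, hg3, h23⟩ := inf_ord g2
  have n12 : (⟨g1, hg1⟩ : Gam) ≠ ⟨g2, hg2⟩ := fun h => h12.ne (congrArg Subtype.val h)
  have n13 : (⟨g1, hg1⟩ : Gam) ≠ ⟨g3, hg3⟩ := fun h => (h12.trans h23).ne (congrArg Subtype.val h)
  have n23 : (⟨g2, hg2⟩ : Gam) ≠ ⟨g3, hg3⟩ := fun h => h23.ne (congrArg Subtype.val h)
  refine ⟨_, (MvPolynomial.X ⟨g1, hg1⟩ + MvPolynomial.X ⟨g2, hg2⟩) + MvPolynomial.X ⟨g3, hg3⟩, ?_, rfl⟩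
  have e1 : (MvPolynomial.X ⟨g1, hg1⟩ + MvPolynomial.X ⟨g2, hg2⟩ : MvPolynomial Gam ℚ).vars =
      {⟨g1, hg1⟩} ∪ {⟨g2, hg2⟩} := by
    rw [MvPolynomial.vars_add_of_disjoint, MvPolynomial.vars_X, MvPolynomial.vars_X]
    rw [MvPolynomial.vars_X, MvPolynomial.vars_X]
    simpa using n12
  rw [MvPolynomial.vars_add_of_disjoint, e1, MvPolynomial.vars_X]
  · have : ({⟨g1, hg1⟩} ∪ {⟨g2, hg2⟩} ∪ {⟨g3, hg3⟩} : Finset Gam) = {⟨g1, hg1⟩, ⟨g2, hg2⟩, ⟨g3, hg3⟩} := by
      ext x
      simp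
    rw [this, Finset.card_insert_of_notMem, Finset.card_insert_of_notMem, Finset.card_singleton]
    · simpa using n23
    · simp only [Finset.mem_insert, Finset.mem_singleton, not_or]
      exact ⟨n12, n13⟩
  · rw [e1, MvPolynomial.vars_X]
    simp only [Finset.disjoint_singleton_right, Finset.mem_union, Finset.mem_singleton, not_or]
    exact ⟨n13.symm, n23.symm⟩

/-- algebraic independence and common zeros -/
theorem alg_iff_nc (hRH : RHs) : AlgebraicIndependent ℚ (fun γ : Gam => (γ : ℝ)) ↔ ∀ τ ∈ TauA, NC τ := by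
  classical
  constructor
  · rintro hA τ ⟨p, hp, hτ⟩ s h0 h1 hs hs'
    have hcomb : ∀ u ∈ Gam, ∀ v ∈ Gam, ∀ c d : ℤ, τ ≠ c * u + d * v := by
      intro u hu v hv c d
      rw [hτ]
      exact comb_alg hA hp ⟨u, hu⟩ ⟨v, hv⟩ c d
    have hab : ∀ x : ℝ, ∃ c : ℤ, x = c * |x| := by
      intro x
      rcases le_total 0 x with h | h
      · exact ⟨1, by rw [abs_of_nonneg h]; simp⟩
      · exact ⟨-1, by rw [abs_of_nonpos h]; simp⟩
    obtain ⟨g, hg, -⟩ := inf_ord 0
    have hre : (s + τ * I).re = s.re := by simp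
    have him : (s + τ * I).im = s.im + τ := by simp
    obtain ⟨c, hc'⟩ := hab (s.im + τ)
    obtain ⟨d, hd'⟩ := hab s.im
    by_cases h2 : s.im = 0
    · by_cases h3 : s.im + τ = 0
      · refine hcomb g hg g hg 0 0 ?_
        rw [h2, zero_add] at h3
        simp [h3]
      · have h4 := abs_mem (s := s + τ * I) (by rwa [hre]) (by rwa [hre]) hs' (by rwa [him])
        rw [him] at h4
        refine hcomb _ h4 _ h4 c 0 ?_
        rw [← hc', h2]
        simp
    · have h5 := abs_mem h0 h1 hs h2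
      have h9 : ((-d : ℤ) : ℝ) * |s.im| = -s.im := by
        push_cast
        rw [neg_mul, ← hd']
      by_cases h3 : s.im + τ = 0
      · refine hcomb _ h5 _ h5 0 (-d) ?_
        rw [h9]
        push_cast
        linarith
      · have h4 := abs_mem (s := s + τ * I) (by rwa [hre]) (by rwa [hre]) hs' (by rwa [him])
        rw [him] at h4
        refine hcomb _ h4 _ h5 c (-d) ?_
        rw [← hc', h9]
        ring
  · intro h
    by_contra hA
    rw [algebraicIndependent_iff] at hA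
    push Not at hA
    obtain ⟨p, hp0, hp⟩ := hA
    -- the polynomial is not constant
    have hvars : 0 < p.vars.card := by
      rw [Finset.card_pos, Finset.nonempty_iff_ne_empty]
      intro h1
      obtain ⟨a, ha⟩ : ∃ a : ℚ, p = MvPolynomial.C a := by
        refine ⟨p.coeff 0, ?_⟩
        have h2 : p.support ⊆ {0} := by
          intro m hm
          rw [Finset.mem_singleton]
          by_contra hm0
          obtain ⟨i, hi⟩ := Finsupp.ne_iff.1 hm0
          have h3 : i ∈ p.vars := (MvPolynomial.mem_vars_iff_mem_support i).2 ⟨m, hm, by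
            rw [Finsupp.mem_support_iff]
            simpa using hi⟩
          rw [h1] at h3
          exact absurd h3 (Finset.notMem_empty i)
        ext m
        rw [MvPolynomial.coeff_C]
        split_ifs with h3
        · rw [h3]
        · by_contra h4
          have h5 := h2 (MvPolynomial.mem_support_iff.2 h4)
          rw [Finset.mem_singleton] at h5
          exact h3 h5.symm
      rw [ha, MvPolynomial.aeval_C] at hp0
      have h2 : a = 0 := by
        have h3 : ((a : ℚ) : ℝ) = 0 := by simpa using hp0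
        exact_mod_cast h3
      exact hp (by rw [ha, h2, MvPolynomial.C_0])
    obtain ⟨B, hB⟩ : ∃ B : ℝ, ∀ x ∈ p.vars, (x : ℝ) ≤ B := ⟨∑ x ∈ p.vars, |(x : ℝ)|, fun x hx =>
      (le_abs_self _).trans (Finset.single_le_sum (f := fun x : Gam => |(x : ℝ)|) (fun _ _ => abs_nonneg _) hx)⟩
    obtain ⟨ga, hga, hBa⟩ := inf_ord B
    obtain ⟨gb, hgb, hab⟩ := inf_ord ga
    have na : (⟨ga, hga⟩ : Gam) ∉ p.vars := fun h2 => absurd (hB _ h2) (by
      show ¬ ga ≤ B
      linarith)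
    have nb : (⟨gb, hgb⟩ : Gam) ∉ p.vars := fun h2 => absurd (hB _ h2) (by
      show ¬ gb ≤ B
      linarith)
    have nab : (⟨ga, hga⟩ : Gam) ≠ ⟨gb, hgb⟩ := fun h2 => hab.ne (congrArg Subtype.val h2)
    have e1 : (MvPolynomial.X ⟨ga, hga⟩ - MvPolynomial.X ⟨gb, hgb⟩ : MvPolynomial Gam ℚ).vars =
        {⟨ga, hga⟩} ∪ {⟨gb, hgb⟩} := by
      rw [MvPolynomial.vars_sub_of_disjoint, MvPolynomial.vars_X, MvPolynomial.vars_X]
      rw [MvPolynomial.vars_X, MvPolynomial.vars_X]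
      simpa using nab
    have hdis : Disjoint p.vars (MvPolynomial.X ⟨ga, hga⟩ - MvPolynomial.X ⟨gb, hgb⟩ : MvPolynomial Gam ℚ).vars := by
      rw [e1, Finset.disjoint_union_right, Finset.disjoint_singleton_right, Finset.disjoint_singleton_right]
      exact ⟨na, nb⟩
    have e2 := MvPolynomial.vars_add_of_disjoint hdis
    have hcard : 3 ≤ (p + (MvPolynomial.X ⟨ga, hga⟩ - MvPolynomial.X ⟨gb, hgb⟩ : MvPolynomial Gam ℚ)).vars.card := by
      rw [e2, Finset.card_union_of_disjoint hdis, e1, Finset.card_union_of_disjoint (by simpa using nab),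
        Finset.card_singleton, Finset.card_singleton]
      omega
    have h1 := h (ga - gb) ⟨_, hcard, by
      rw [map_add, hp0, zero_add, map_sub, MvPolynomial.aeval_X, MvPolynomial.aeval_X]⟩
    obtain ⟨-, sa, ⟨a0, a1⟩, a2, a3⟩ := hga
    obtain ⟨-, sb, ⟨b0, b1⟩, b2, b3⟩ := hgb
    have h2 : sb + ((ga - gb : ℝ) : ℂ) * I = sa := by
      apply Complex.ext
      · simp [hRH sa a0 a1 a3, hRH sb b0 b1 b3]
      · simp [a2, b2]
    exact h1 sb b0 b1 b3 (by rw [h2]; exact a3)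

/-- **the criterion for RH and algebraic independence** -/
theorem alg1 : (RiemannHypothesis ∧ AlgebraicIndependent ℚ (fun γ : Gam => (γ : ℝ))) ↔ ∀ τ ∈ TauA, Add τ := by
  constructor
  · rintro ⟨hRH, hLI⟩ τ hτ
    exact (add_iff hRH τ).2 ((alg_iff_nc (rhs_iff.1 hRH)).1 hLI τ hτ)
  · intro h
    obtain ⟨τ, hτ⟩ := tauA_nonempty
    obtain ⟨u, v, -, -, h1, -⟩ := h τ hτ
    have hRH := rh_of_limit h1
    exact ⟨hRH, (alg_iff_nc (rhs_iff.1 hRH)).2 fun t ht => (add_iff hRH t).1 (h t ht)⟩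

/-- **the criterion with simplicity** -/
theorem alg2 : (RiemannHypothesis ∧ Simple ∧ AlgebraicIndependent ℚ (fun γ : Gam => (γ : ℝ))) ↔ ∀ τ ∈ TauA,
    HL (fun s => riemannZeta s * riemannZeta (s + τ * I)) (cc 0 + cc τ) := by
  constructor
  · rintro ⟨hRH, hS, hLI⟩ τ hτ
    exact (iff_two τ).1 ⟨hRH, hS, (alg_iff_nc (rhs_iff.1 hRH)).1 hLI τ hτ⟩
  · intro h
    obtain ⟨τ, hτ⟩ := tauA_nonempty
    obtain ⟨hRH, hS, -⟩ := (iff_two τ).2 (h τ hτ)
    exact ⟨hRH, hS, (alg_iff_nc (rhs_iff.1 hRH)).2 fun t ht => ((iff_two t).2 (h t ht)).2.2⟩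

/-! ### algebraic shifts -/

/-- no two different ordinates of nontrivial zeros differ by an algebraic number -/
def NAD : Prop := ∀ s s' : ℂ, 0 < s.re → s.re < 1 → riemannZeta s = 0 → 0 < s'.re → s'.re < 1 → riemannZeta s' = 0 →
  s.im ≠ s'.im → Transcendental ℚ (s.im - s'.im)

/-- the nonzero real algebraic numbers -/
def AlgS : Set ℝ := {τ : ℝ | τ ≠ 0 ∧ IsAlgebraic ℚ τ}

lemma nad_iff_nc (hRH : RHs) : NAD ↔ ∀ τ ∈ AlgS, NC τ := by
  constructor
  · rintro h τ ⟨h0, hτ⟩ s s0 s1 hs hs'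
    have hre : (s + τ * I).re = s.re := by simp
    have him : (s + τ * I).im = s.im + τ := by simp
    refine h (s + τ * I) s (by rwa [hre]) (by rwa [hre]) hs' s0 s1 hs ?_ ?_
    · rw [him]
      simpa using h0
    · rw [him, add_sub_cancel_left]
      exact hτ
  · intro h s s' s0 s1 hs s0' s1' hs' hne halg
    have h2 : s' + ((s.im - s'.im : ℝ) : ℂ) * I = s := by
      apply Complex.ext
      · simp [hRH s s0 s1 hs, hRH s' s0' s1' hs']
      · simp
    exact h (s.im - s'.im) ⟨sub_ne_zero.2 hne, halg⟩ s' s0' s1' hs' (by rw [h2]; exact hs)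

lemma algS_one : (1 : ℝ) ∈ AlgS := ⟨one_ne_zero, isAlgebraic_one⟩

theorem nad1 : (RiemannHypothesis ∧ NAD) ↔ ∀ τ ∈ AlgS, Add τ := by
  constructor
  · rintro ⟨hRH, hLI⟩ τ hτ
    exact (add_iff hRH τ).2 ((nad_iff_nc (rhs_iff.1 hRH)).1 hLI τ hτ)
  · intro h
    obtain ⟨u, v, -, -, h1, -⟩ := h 1 algS_one
    have hRH := rh_of_limit h1
    exact ⟨hRH, (nad_iff_nc (rhs_iff.1 hRH)).2 fun t ht => (add_iff hRH t).1 (h t ht)⟩

theorem nad2 : (RiemannHypothesis ∧ Simple ∧ NAD) ↔ ∀ τ ∈ AlgS,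
    HL (fun s => riemannZeta s * riemannZeta (s + τ * I)) (cc 0 + cc τ) := by
  constructor
  · rintro ⟨hRH, hS, hLI⟩ τ hτ
    exact (iff_two τ).1 ⟨hRH, hS, (nad_iff_nc (rhs_iff.1 hRH)).1 hLI τ hτ⟩
  · intro h
    obtain ⟨hRH, hS, -⟩ := (iff_two 1).2 (h 1 algS_one)
    exact ⟨hRH, hS, (nad_iff_nc (rhs_iff.1 hRH)).2 fun t ht => ((iff_two t).2 (h t ht)).2.2⟩

/-- then all ordinates are transcendental -/
lemma nad_trans (h : NAD) {s : ℂ} (s0 : 0 < s.re) (s1 : s.re < 1) (hs : riemannZeta s = 0) (hne : s.im ≠ 0) :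
    Transcendental ℚ s.im := by
  intro halg
  have h1 := h s (starRingEnd ℂ s) s0 s1 hs (by simpa using s0) (by simpa using s1) ?_ ?_
  · apply h1
    rw [Complex.conj_im, sub_neg_eq_add]
    exact halg.add halg
  · rw [riemannZeta_conj, hs, map_zero]
  · rw [Complex.conj_im]
    intro h2
    exact hne (by linarith)

end Pool.Agent.N967.P.Z
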